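import Mathlib

set_option autoImplicit false

open Algebra TensorProduct KaehlerDifferential

namespace Pool.Agent.AHH

/-- In characteristic zero, a derivation from a subring of a field into the field extends to the
whole field. -/
theorem exists_derivation_extension {K L : Type*} [Field K] [Field L] [CharZero L] [Algebra K L]
    (A : Subalgebra K L) (d : Derivation K A L) :
    ∃ δ : Derivation K L L, ∀ a : A, δ (a : L) = d a := by
  have hinj : Function.Injective (algebraMap A L) := Subtype.val_injective
  let _ : Algebra (FractionRing A) L := FractionRing.liftAlgebra A L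
  have : IsScalarTower A (FractionRing A) L := FractionRing.isScalarTower_liftAlgebra A L
  have : CharZero (FractionRing A) := by
    have hA : CharZero A := by
      constructor
      intro a b hab
      have : ((a : A) : L) = ((b : A) : L) := by rw [hab]
      exact_mod_cast this
    exact IsFractionRing.charZero A
  have h1 : FormallySmooth A (FractionRing A) :=
    FormallySmooth.of_isLocalization (nonZeroDivisors A)
  have hfs : FaithfulSMul (FractionRing A) L :=
    (faithfulSMul_iff_algebraMap_injective _ _).mpr (algebraMap (FractionRing A) L).injective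
  have h2 : FormallySmooth (FractionRing A) L := by
    obtain ⟨s, hs⟩ := exists_isTranscendenceBasis (FractionRing A) L
    have : Algebra.IsAlgebraic
        (IntermediateField.adjoin (FractionRing A) (Set.range ((↑) : s → L))) L :=
      hs.isAlgebraic_field
    exact FormallySmooth.of_algebraicIndependent_of_isSeparable hs.1
  have h3 : FormallySmooth A L := FormallySmooth.comp A (FractionRing A) L
  have hsub : Subsingleton (H1Cotangent A L) := inferInstance
  have hex := H1Cotangent.exact_δ_mapBaseChange K A L
  have hmbc : Function.Injective (mapBaseChange K A L) := by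
    rw [injective_iff_map_eq_zero]
    intro x hx
    obtain ⟨y, rfl⟩ := (hex x).mp hx
    have : y = 0 := Subsingleton.elim _ _
    rw [this, map_zero]
  obtain ⟨h, hh⟩ := LinearMap.exists_leftInverse_of_injective (mapBaseChange K A L)
    (LinearMap.ker_eq_bot.mpr hmbc)
  set ℓ : L ⊗[A] Ω[A⁄K] →ₗ[L] L := d.liftKaehlerDifferential.liftBaseChange L with hℓ
  refine ⟨(ℓ.comp h).compDer (KaehlerDifferential.D K L), fun a => ?_⟩
  have e1 : mapBaseChange K A L (1 ⊗ₜ KaehlerDifferential.D K A a) =
      KaehlerDifferential.D K L (a : L) := by
    rw [mapBaseChange_tmul, one_smul, KaehlerDifferential.map_D]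
    rfl
  show ℓ (h (KaehlerDifferential.D K L (a : L))) = d a
  rw [← e1]
  have e2 : h (mapBaseChange K A L (1 ⊗ₜ KaehlerDifferential.D K A a)) =
      1 ⊗ₜ KaehlerDifferential.D K A a := by
    have := LinearMap.congr_fun hh (1 ⊗ₜ KaehlerDifferential.D K A a)
    simpa using this
  rw [e2, hℓ, LinearMap.liftBaseChange_tmul, one_smul, Derivation.liftKaehlerDifferential_comp_D]

end Pool.Agent.AHH
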