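import Mathlib
import Pool.Agent.AHC.Gal
import Pool.Agent.AHH.DerExt

/-!
# Derivations of `ℂ`
-/

namespace Pool.Agent.AHH

open Pool.Agent.AHC Polynomial

/-- a derivation of `ℂ` with given values on an algebraically independent set -/
theorem exists_derivation {X : Set ℂ} (hX : MC.Indep X) (y : ℂ → ℂ) :
    ∃ D : Derivation ℚ ℂ ℂ, ∀ x ∈ X, D x = y x := by
  have hX' : AlgebraicIndependent ℚ (Subtype.val : X → ℂ) := hX
  let φ : MvPolynomial X ℚ →ₐ[ℚ] ℂ := MvPolynomial.aeval (Subtype.val : X → ℂ)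
  let i1 : Algebra (MvPolynomial X ℚ) ℂ := φ.toRingHom.toAlgebra
  have i2 : IsScalarTower ℚ (MvPolynomial X ℚ) ℂ := IsScalarTower.of_algebraMap_eq (fun q => by
    change _ = φ _
    rw [AlgHom.commutes])
  have hsm : ∀ (p : MvPolynomial X ℚ) (z : ℂ), p • z = φ p * z := fun p z => by
    rw [Algebra.smul_def]
    rfl
  let D0 : Derivation ℚ (MvPolynomial X ℚ) ℂ := MvPolynomial.mkDerivation ℚ (fun x : X => y x)
  let A : Subalgebra ℚ ℂ := Algebra.adjoin ℚ (Set.range (Subtype.val : X → ℂ))
  let e : MvPolynomial X ℚ ≃ₐ[ℚ] A := hX'.aevalEquiv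
  have he : ∀ p, (e p : ℂ) = φ p := fun p => hX'.algebraMap_aevalEquiv p
  let dl : A →ₗ[ℚ] ℂ := D0.toLinearMap ∘ₗ e.symm.toLinearMap
  have hdl : ∀ a, dl a = D0 (e.symm a) := fun a => rfl
  let d : Derivation ℚ A ℂ := Derivation.mk' dl (fun a b => by
    rw [hdl, hdl, hdl, map_mul, D0.leibniz, hsm, hsm, ← he, ← he, e.apply_symm_apply,
      e.apply_symm_apply]
    rfl)
  obtain ⟨D, hD⟩ := exists_derivation_extension A d
  refine ⟨D, fun x hx => ?_⟩
  have h1 := hD (e (MvPolynomial.X ⟨x, hx⟩))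
  have h2 : ((e (MvPolynomial.X ⟨x, hx⟩) : A) : ℂ) = x := by
    rw [he]
    exact MvPolynomial.aeval_X _ _
  rw [h2] at h1
  rw [h1]
  change D0 (e.symm (e (MvPolynomial.X ⟨x, hx⟩))) = _
  rw [e.symm_apply_apply]
  exact MvPolynomial.mkDerivation_X _ _ _

/-- a derivation which kills `S` kills everything algebraic over `S` -/
theorem derivation_eq_zero {S : Set ℂ} {D : Derivation ℚ ℂ ℂ} (hD : ∀ s ∈ S, D s = 0) {z : ℂ}
    (hz : z ∈ cl S) : D z = 0 := by
  have hA : ∀ a : Algebra.adjoin ℚ S, D (a : ℂ) = 0 := by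
    intro a
    have h1 : Set.EqOn D (0 : Derivation ℚ ℂ ℂ) (Algebra.adjoin ℚ S) := by
      refine Derivation.eqOn_adjoin fun s hs => ?_
      rw [hD s hs]
      rfl
    exact h1 a.2
  let DA : Derivation (Algebra.adjoin ℚ S) ℂ ℂ :=
    Derivation.mk' { toFun := D
                     map_add' := map_add D
                     map_smul' := fun a x => by
                      change D ((a : ℂ) * x) = (a : ℂ) * D x
                      rw [D.leibniz, hA, smul_zero, add_zero]
                      rfl } (fun a b => D.leibniz a b)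
  have hDA : ∀ x, DA x = D x := fun _ => rfl
  have key : ∀ n : ℕ, ∀ p : (Algebra.adjoin ℚ S)[X], p.natDegree = n → p ≠ 0 → aeval z p = 0 →
      D z = 0 := by
    intro n
    induction n using Nat.strong_induction_on with
    | _ n ih =>
      intro p hpn hp hpz
      rcases Nat.eq_zero_or_pos n with h0 | h0
      · exfalso
        rw [h0] at hpn
        rw [eq_C_of_natDegree_eq_zero hpn, aeval_C] at hpz
        have h1 : p.coeff 0 = 0 := by
          apply (FaithfulSMul.algebraMap_injective (Algebra.adjoin ℚ S) ℂ)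
          rw [hpz, map_zero]
        apply hp
        rw [eq_C_of_natDegree_eq_zero hpn, h1, C_0]
      · have h1 := DA.map_aeval p z
        rw [hpz, map_zero, hDA, smul_eq_mul] at h1
        rcases mul_eq_zero.1 h1.symm with h2 | h2
        · have hd : derivative p ≠ 0 := by
            intro h3
            have h4 := derivative_eq_zero.1 h3
            omega
          refine ih _ ?_ _ rfl hd h2
          rw [← hpn]
          exact natDegree_derivative_lt (by omega)
        · exact h2
  obtain ⟨p, hp, hpz⟩ := hz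
  exact key _ p rfl hp hpz

/-- an element killed by all derivations is algebraic -/
theorem mem_of_derivation {z : ℂ} (h : ∀ D : Derivation ℚ ℂ ℂ, D z = 0) : z ∈ cl ∅ := by
  by_contra hz
  have h1 : MC.Indep (insert z ∅) := by
    rw [← closure_eq] at hz
    exact (MC.empty_indep.notMem_closure_iff.1 hz).1
  obtain ⟨D, hD⟩ := exists_derivation h1 (fun _ => 1)
  have h2 := hD z (Set.mem_insert _ _)
  rw [h D] at h2
  exact zero_ne_one h2

/-- partial derivatives -/
theorem exists_partials {S : Finset ℂ} {h : ℂ} (hh : h ∈ cl (S : Set ℂ)) :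
    ∃ c : ℂ → ℂ, ∀ D : Derivation ℚ ℂ ℂ, D h = ∑ s ∈ S, c s * D s := by
  let f : ℂ → Derivation ℚ ℂ ℂ →ₗ[ℂ] ℂ := fun s =>
    { toFun := fun D => D s
      map_add' := fun D D' => rfl
      map_smul' := fun a D => rfl }
  have hf : ∀ s D, f s D = D s := fun _ _ => rfl
  have h1 : f h ∈ Submodule.span ℂ (Set.range (fun s : S => f s)) := by
    apply mem_span_of_iInf_ker_le_ker
    intro D hD
    rw [Submodule.mem_iInf] at hD
    rw [LinearMap.mem_ker, hf]
    refine derivation_eq_zero (S := S) (fun s hs => ?_) hh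
    exact hD ⟨s, hs⟩
  rw [Submodule.mem_span_range_iff_exists_fun] at h1
  obtain ⟨c, hc⟩ := h1
  classical
  refine ⟨fun s => if hs : s ∈ S then c ⟨s, hs⟩ else 0, fun D => ?_⟩
  have h2 := LinearMap.congr_fun hc D
  rw [hf] at h2
  rw [← h2, LinearMap.sum_apply, ← Finset.sum_coe_sort S]
  refine Finset.sum_congr rfl fun s _ => ?_
  change c s * D s = (if hs : (s : ℂ) ∈ S then c ⟨s, hs⟩ else 0) * D s
  rw [dif_pos s.2]

end Pool.Agent.AHH
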