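import Mathlib
import Pool.Agent.AHC.Abs

/-!
# Hyperplanes: algebraically closed subfields of `ℂ` of co-transcendence degree one

Let `H` be a closed submonoid of `Aut ℂ`.  A hyperplane `X` is listed if `H` contains all
automorphisms which fix `X` pointwise; `ccl H A` is the intersection of the listed hyperplanes
which contain `A`.  We prove the exchange property for `ccl H`.
-/

namespace Pool.Agent.AHH

open Pool.Agent.AHC

/-- `X` is an algebraically closed subfield of `ℂ` over which `ℂ` has transcendence degree one -/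
structure Hyper (X : Set ℂ) : Prop where
  flat : cl X = X
  ne : ∃ z, z ∉ X
  span : ∀ z, z ∉ X → ∀ w, w ∈ cl (insert z X)

/-- `X` is a hyperplane and `H` contains all automorphisms which fix `X` -/
structure Listed (H : Set (ℂ ≃+* ℂ)) (X : Set ℂ) : Prop where
  hyper : Hyper X
  fix : ∀ σ : ℂ ≃+* ℂ, (∀ z ∈ X, σ z = z) → σ ∈ H

/-- the intersection of the listed hyperplanes which contain `A` -/
def ccl (H : Set (ℂ ≃+* ℂ)) (A : Set ℂ) : Set ℂ := {z | ∀ X, Listed H X → A ⊆ X → z ∈ X}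

/-- the units of `H` which fix `ccl H ∅` -/
structure NN (H : Set (ℂ ≃+* ℂ)) (g : ℂ ≃+* ℂ) : Prop where
  mem : g ∈ H
  symm_mem : g.symm ∈ H
  fix : ∀ z ∈ ccl H ∅, g z = z

variable {H : Set (ℂ ≃+* ℂ)}

theorem add_one_notMem {X : Set ℂ} {z : ℂ} (hX : cl X = X) (hz : z ∉ X) : z + 1 ∉ X := by
  intro h
  rw [← hX] at h hz
  have h' : z + 1 - 1 ∈ clF X := (clF _).sub_mem h (clF _).one_mem
  rw [add_sub_cancel_right] at h'
  exact hz h'

theorem mem_of_fix {X : Set ℂ} (hX : cl X = X) {z : ℂ}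
    (h : ∀ σ : ℂ ≃+* ℂ, (∀ x ∈ X, σ x = x) → σ z = z) : z ∈ X := by
  by_contra hz
  have hz1 : z ∉ cl X := by rwa [hX]
  have hz2 : z + 1 ∉ cl X := by
    rw [hX]
    exact add_one_notMem hX hz
  obtain ⟨γ, h1, h2⟩ := exists_move hz1 hz2
  have h3 := h γ fun x hx => h1 x (by rwa [hX])
  rw [h2] at h3
  simp at h3

theorem symm_fix {S : Set ℂ} {g : ℂ ≃+* ℂ} (h : ∀ z ∈ S, g z = z) : ∀ z ∈ S, g.symm z = z := by
  intro z hz
  rw [RingEquiv.symm_apply_eq, h z hz]

theorem NN.symm {g : ℂ ≃+* ℂ} (h : NN H g) : NN H g.symm where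
  mem := h.symm_mem
  symm_mem := by rw [RingEquiv.symm_symm]; exact h.mem
  fix := symm_fix h.fix

theorem NN.trans (hH : IsClosedMonoid H) {g g' : ℂ ≃+* ℂ} (h : NN H g) (h' : NN H g') :
    NN H (g.trans g') where
  mem := hH.mul_mem _ h.mem _ h'.mem
  symm_mem := hH.mul_mem _ h'.symm_mem _ h.symm_mem
  fix := fun z hz => by rw [RingEquiv.trans_apply, h.fix z hz, h'.fix z hz]

theorem subset_ccl (A : Set ℂ) : A ⊆ ccl H A := fun _ hz _ _ hA => hA hz

theorem ccl_subset {A X : Set ℂ} (hX : Listed H X) (h : A ⊆ X) : ccl H A ⊆ X :=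
  fun _ hz => hz X hX h

theorem ccl_le {A B : Set ℂ} (h : B ⊆ ccl H A) : ccl H B ⊆ ccl H A :=
  fun _ hz X hX hA => hz X hX fun _ hb => h hb X hX hA

theorem ccl_mono {A B : Set ℂ} (h : A ⊆ B) : ccl H A ⊆ ccl H B :=
  ccl_le (h.trans (subset_ccl B))

theorem cl_ccl (A : Set ℂ) : cl (ccl H A) = ccl H A := by
  apply Set.Subset.antisymm
  · intro z hz X hX hA
    rw [← hX.hyper.flat]
    exact cl_mono (ccl_subset hX hA) hz
  · exact subset_cl _

theorem Listed.NN {X : Set ℂ} (hX : Listed H X) {g : ℂ ≃+* ℂ} (hg : ∀ z ∈ X, g z = z) :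
    NN H g where
  mem := hX.fix g hg
  symm_mem := hX.fix _ (symm_fix hg)
  fix := fun z hz => hg z (hz X hX (Set.empty_subset _))

theorem Hyper.image {X : Set ℂ} (hX : Hyper X) (g : ℂ ≃+* ℂ) : Hyper (g '' X) where
  flat := by rw [← image_cl, hX.flat]
  ne := by
    obtain ⟨z, hz⟩ := hX.ne
    refine ⟨g z, ?_⟩
    rintro ⟨y, hy, hyz⟩
    exact hz (g.injective hyz ▸ hy)
  span := by
    intro z hz w
    have h1 : g.symm z ∉ X := fun h => hz ⟨_, h, g.apply_symm_apply z⟩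
    have h2 := map_mem_cl g (hX.span _ h1 (g.symm w))
    rwa [RingEquiv.apply_symm_apply, Set.image_insert_eq, RingEquiv.apply_symm_apply] at h2

theorem Listed.image (hH : IsClosedMonoid H) {X : Set ℂ} (hX : Listed H X) {g : ℂ ≃+* ℂ}
    (h1 : g ∈ H) (h2 : g.symm ∈ H) : Listed H (g '' X) where
  hyper := hX.hyper.image g
  fix := by
    intro σ hσ
    have h3 : (g.trans σ).trans g.symm ∈ H := by
      refine hX.fix _ fun z hz => ?_
      rw [RingEquiv.trans_apply, RingEquiv.trans_apply, hσ _ ⟨z, hz, rfl⟩,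
        RingEquiv.symm_apply_apply]
    have h4 := hH.mul_mem _ (hH.mul_mem _ h2 _ h3) _ h1
    have h5 : (g.symm.trans ((g.trans σ).trans g.symm)).trans g = σ := by
      ext z
      simp
    rwa [h5] at h4

theorem map_mem_ccl' (hH : IsClosedMonoid H) {g : ℂ ≃+* ℂ} (h1 : g ∈ H) (h2 : g.symm ∈ H)
    {A : Set ℂ} {z : ℂ} (hz : z ∈ ccl H A) : g z ∈ ccl H (g '' A) := by
  intro X hX hA
  have h3 : g.symm.symm ∈ H := by rw [RingEquiv.symm_symm]; exact h1
  have h4 := hz _ (hX.image hH h2 h3) (by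
    intro a ha
    exact ⟨g a, hA ⟨a, ha, rfl⟩, g.symm_apply_apply a⟩)
  obtain ⟨y, hy, hyz⟩ := h4
  rw [← hyz, RingEquiv.apply_symm_apply]
  exact hy

theorem map_mem_ccl (hH : IsClosedMonoid H) {g : ℂ ≃+* ℂ} (hg : NN H g) {A : Set ℂ} {z : ℂ}
    (hz : z ∈ ccl H A) : g z ∈ ccl H (g '' A) := map_mem_ccl' hH hg.mem hg.symm_mem hz

/-- two elements outside `ccl H A` are conjugate under the elements of `H` which fix `ccl H A` -/
theorem exists_NN_move (hH : IsClosedMonoid H) {A : Set ℂ} {x y : ℂ} (hx : x ∉ ccl H A)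
    (hy : y ∉ ccl H A) : ∃ g, NN H g ∧ (∀ z ∈ ccl H A, g z = z) ∧ g x = y := by
  have hx' : ∃ X, Listed H X ∧ A ⊆ X ∧ x ∉ X := by
    by_contra h
    push Not at h
    exact hx h
  have hy' : ∃ X, Listed H X ∧ A ⊆ X ∧ y ∉ X := by
    by_contra h
    push Not at h
    exact hy h
  obtain ⟨X, hX, hAX, hxX⟩ := hx'
  obtain ⟨Y, hY, hAY, hyY⟩ := hy'
  have hz : ∃ z, z ∉ X ∧ z ∉ Y := by
    by_contra h
    push Not at h
    obtain ⟨u, hu⟩ := hX.hyper.ne
    obtain ⟨v, hv⟩ := hY.hyper.ne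
    have h1 : u ∈ Y := h u hu
    have h2 : v ∈ X := by
      by_contra hvX
      exact hv (h v hvX)
    have h1' : u ∈ clF Y := by
      rw [mem_clF, hY.hyper.flat]
      exact h1
    have h2' : v ∈ clF X := by
      rw [mem_clF, hX.hyper.flat]
      exact h2
    have h3 : u + v ∉ X := by
      intro h3
      have h3' : u + v ∈ clF X := by
        rw [mem_clF, hX.hyper.flat]
        exact h3
      have h4 := (clF X).sub_mem h3' h2'
      rw [add_sub_cancel_right, mem_clF, hX.hyper.flat] at h4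
      exact hu h4
    have h5 := h _ h3
    have h5' : u + v ∈ clF Y := by
      rw [mem_clF, hY.hyper.flat]
      exact h5
    have h6 := (clF Y).sub_mem h5' h1'
    rw [add_sub_cancel_left, mem_clF, hY.hyper.flat] at h6
    exact hv h6
  obtain ⟨z, hzX, hzY⟩ := hz
  obtain ⟨α, hα1, hα2⟩ := exists_move (X := X) (by rwa [hX.hyper.flat] : x ∉ cl X)
    (by rwa [hX.hyper.flat] : z ∉ cl X)
  obtain ⟨β, hβ1, hβ2⟩ := exists_move (X := Y) (by rwa [hY.hyper.flat] : z ∉ cl Y)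
    (by rwa [hY.hyper.flat] : y ∉ cl Y)
  rw [hX.hyper.flat] at hα1
  rw [hY.hyper.flat] at hβ1
  refine ⟨α.trans β, (hX.NN hα1).trans hH (hY.NN hβ1), fun w hw => ?_, ?_⟩
  · rw [RingEquiv.trans_apply, hα1 w (hw X hX hAX), hβ1 w (hw Y hY hAY)]
  · rw [RingEquiv.trans_apply, hα2, hβ2]

/-- hyperplanes are incomparable -/
theorem Hyper.eq_of_subset {X Y : Set ℂ} (hX : Hyper X) (hY : Hyper Y) (h : X ⊆ Y) : Y ⊆ X := by
  intro z hz
  by_contra hzX
  obtain ⟨w, hw⟩ := hY.ne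
  have h1 := hX.span z hzX w
  refine hw ?_
  rw [← hY.flat]
  exact cl_mono (Set.insert_subset hz h) h1

/-- **exchange** -/
theorem ccl_exchange (hH : IsClosedMonoid H) {A : Set ℂ} {x y : ℂ} (hx : x ∉ ccl H A)
    (hy : y ∉ ccl H A) (h : y ∈ ccl H (insert x A)) : x ∈ ccl H (insert y A) := by
  by_contra hxy
  have h1 : ∃ X, Listed H X ∧ A ⊆ X ∧ y ∉ X := by
    by_contra h
    push Not at h
    exact hy h
  have h2 : ∃ X, Listed H X ∧ insert y A ⊆ X ∧ x ∉ X := by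
    by_contra h
    push Not at h
    exact hxy h
  obtain ⟨X, hX, hAX, hyX⟩ := h1
  obtain ⟨Y, hY, hAY, hxY⟩ := h2
  have hyY : y ∈ Y := hAY (Set.mem_insert _ _)
  have h3 : ∃ x0, x0 ∈ X ∧ x0 ∉ Y := by
    by_contra h3
    push Not at h3
    exact hyX (hX.hyper.eq_of_subset hY.hyper h3 hyY)
  obtain ⟨x0, hx0X, hx0Y⟩ := h3
  have hx0 : x0 ∉ ccl H (insert y A) := fun h => hx0Y (h Y hY hAY)
  obtain ⟨g, hg, hg1, hg2⟩ := exists_NN_move hH hxy hx0
  have hfixA : ∀ a ∈ A, g a = a := fun a ha => hg1 a (subset_ccl _ (Or.inr ha))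
  have hgy : g y = y := hg1 y (subset_ccl _ (Set.mem_insert _ _))
  have h4 := map_mem_ccl hH hg h
  rw [hgy, Set.image_insert_eq, hg2] at h4
  have h5 : g '' A = A := by
    ext z
    constructor
    · rintro ⟨a, ha, rfl⟩
      rw [hfixA a ha]
      exact ha
    · intro hz
      exact ⟨z, hz, hfixA z hz⟩
  rw [h5] at h4
  exact hyX (h4 X hX (Set.insert_subset hx0X hAX))

/-- an element outside an algebraically closed subfield `K` is outside a hyperplane which
contains `K` -/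
theorem exists_hyper {K : Set ℂ} (hK : cl K = K) {z : ℂ} (hz : z ∉ K) :
    ∃ X, Hyper X ∧ K ⊆ X ∧ z ∉ X := by
  have hzorn := zorn_subset_nonempty {X : Set ℂ | cl X = X ∧ K ⊆ X ∧ z ∉ X} (by
    intro c hc hchain hne
    refine ⟨⋃₀ c, ⟨?_, ?_, ?_⟩, fun s hs => Set.subset_sUnion_of_mem hs⟩
    · apply Set.Subset.antisymm _ (subset_cl _)
      intro w hw
      obtain ⟨I, hI1, hI2, -, hI3⟩ := exists_finite_of_mem_cl hw
      have h1 : ∃ Y ∈ c, I ⊆ Y := by
        have h2 := hchain.directedOn.exists_mem_subset_of_finite_of_subset_sUnion hne hI2 hI1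
        exact h2
      obtain ⟨Y, hY, hIY⟩ := h1
      refine Set.mem_sUnion.2 ⟨Y, hY, ?_⟩
      rw [← (hc hY).1]
      exact cl_mono hIY hI3
    · obtain ⟨Y, hY⟩ := hne
      exact ((hc hY).2.1).trans (Set.subset_sUnion_of_mem hY)
    · rintro ⟨Y, hY, hzY⟩
      exact (hc hY).2.2 hzY) K ⟨hK, subset_rfl, hz⟩
  obtain ⟨X, hKX, hX⟩ := hzorn
  have hXf : cl X = X := hX.prop.1
  have hXz : z ∉ X := hX.prop.2.2
  have key : ∀ w, w ∉ X → z ∈ cl (insert w X) := by
    intro w hw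
    by_contra h
    have h1 := hX.le_of_ge (y := cl (insert w X)) ⟨cl_cl _, ?_, h⟩ ?_
    · exact hw (h1 (subset_cl _ (Set.mem_insert _ _)))
    · exact hKX.trans ((Set.subset_insert _ _).trans (subset_cl _))
    · exact (Set.subset_insert _ _).trans (subset_cl _)
  have key2 : ∀ w, w ∈ cl (insert z X) := by
    intro w
    by_cases hw : w ∈ X
    · exact subset_cl _ (Or.inr hw)
    · exact cl_exchange (key w hw) (by rwa [hXf])
  refine ⟨X, ⟨hXf, ⟨z, hXz⟩, fun v hv w => ?_⟩, hKX, hXz⟩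
  refine (cl_subset_iff.2 ?_) (key2 w)
  rintro u (rfl | hu)
  · exact key v hv
  · exact subset_cl _ (Or.inr hu)

end Pool.Agent.AHH
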