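import Mathlib
import Pool.Agent.AHH.Hyper

/-!
# Algebraically closed subfields which are stable under automorphisms over a hyperplane

Let `X` be a hyperplane and `E` an algebraically closed subfield of `ℂ`, `x ∈ E \ X`, such that
every automorphism over `X` which maps `x` into `E` maps `E` into itself.  Then `E` is algebraic
over the field generated by `E ∩ X` and `x`.
-/

namespace Pool.Agent.AHH

open Pool.Agent.AHC Polynomial

theorem mem_cl_of_root {Y : Set ℂ} {p : ℂ[X]} (hp : p ≠ 0) (hY : ∀ n, p.coeff n ∈ cl Y) {z : ℂ}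
    (hz : p.eval z = 0) : z ∈ cl Y := by
  have h1 : p ∈ Polynomial.lifts (algebraMap (clF Y) ℂ) := by
    rw [Polynomial.lifts_iff_coeff_lifts]
    intro n
    exact ⟨⟨_, hY n⟩, rfl⟩
  obtain ⟨q, hq⟩ := (Polynomial.mem_lifts _).1 h1
  refine mem_cl_of_isAlgebraic ⟨q, ?_, ?_⟩
  · rintro rfl
    rw [Polynomial.map_zero] at hq
    exact hp hq.symm
  · rw [aeval_def, ← eval_map, hq]
    exact hz

theorem eval_mem_cl {Y : Set ℂ} {p : ℂ[X]} (hY : ∀ n, p.coeff n ∈ cl Y) {z : ℂ}
    (hz : z ∈ cl Y) : p.eval z ∈ cl Y := by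
  rw [eval_eq_sum_range]
  have hz' : z ∈ clF Y := hz
  have hY' : ∀ n, p.coeff n ∈ clF Y := hY
  have h1 : ∑ i ∈ Finset.range (p.natDegree + 1), p.coeff i * z ^ i ∈ clF Y :=
    sum_mem fun i _ => mul_mem (hY' i) (pow_mem hz' i)
  exact h1

theorem eval_map_equiv (σ : ℂ ≃+* ℂ) (p : ℂ[X]) (z : ℂ) :
    (p.map (σ : ℂ →+* ℂ)).eval (σ z) = σ (p.eval z) := by
  rw [eval_map]
  exact Polynomial.eval₂_at_apply (σ : ℂ →+* ℂ) z

theorem map_eq_self_iff {σ : ℂ ≃+* ℂ} {p : ℂ[X]} :
    p.map (σ : ℂ →+* ℂ) = p ↔ ∀ n, σ (p.coeff n) = p.coeff n := by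
  constructor
  · intro h n
    have h1 := congrArg (fun q => coeff q n) h
    simp only [coeff_map] at h1
    exact h1
  · intro h
    ext n
    rw [coeff_map]
    exact h n

/-- uniqueness of the reduced form of a fraction -/
theorem reduced_eq {P Q P' Q' : ℂ[X]} (h : IsCoprime P Q) (hQ : Q.Monic) (hQ' : Q'.Monic)
    (hd : Q'.natDegree ≤ Q.natDegree) (he : P' * Q = P * Q') : P' = P ∧ Q' = Q := by
  have h1 : Q ∣ P * Q' := ⟨P', by rw [← he]; ring⟩
  have h2 : Q ∣ Q' := h.symm.dvd_of_dvd_mul_left h1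
  have h3 : Q' = Q := eq_of_monic_of_dvd_of_natDegree_le hQ hQ' h2 hd
  subst h3
  exact ⟨mul_right_cancel₀ hQ.ne_zero he, rfl⟩

/-- reduced form of the elements of `X(x)` -/
theorem exists_rep {X : Set ℂ} (hX : cl X = X) {x h : ℂ} (hx : x ∉ X)
    (hh : h ∈ IntermediateField.adjoin (clF X) ({x} : Set ℂ)) :
    ∃ P Q : ℂ[X], (∀ n, P.coeff n ∈ X) ∧ (∀ n, Q.coeff n ∈ X) ∧ IsCoprime P Q ∧ Q.Monic ∧
      Q.eval x ≠ 0 ∧ h = P.eval x / Q.eval x := by
  have hev : ∀ Q : ℂ[X], Q ≠ 0 → (∀ n, Q.coeff n ∈ X) → Q.eval x ≠ 0 := by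
    intro Q hQ hQX h0
    refine hx ?_
    rw [← hX]
    exact mem_cl_of_root hQ (fun n => by rw [hX]; exact hQX n) h0
  rw [IntermediateField.mem_adjoin_simple_iff] at hh
  obtain ⟨r, s, hrs⟩ := hh
  by_cases hs : s = 0
  · refine ⟨0, 1, fun n => ?_, fun n => ?_, ?_, monic_one, ?_, ?_⟩
    · rw [coeff_zero, ← hX]
      exact (clF X).zero_mem
    · rw [← hX, coeff_one]
      split_ifs
      · exact (clF X).one_mem
      · exact (clF X).zero_mem
    · exact isCoprime_one_right
    · simp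
    · rw [hrs, hs]
      simp
  let g := EuclideanDomain.gcd r s
  obtain ⟨r', hr'⟩ := EuclideanDomain.gcd_dvd_left r s
  obtain ⟨s', hs'⟩ := EuclideanDomain.gcd_dvd_right r s
  have hg0 : g ≠ 0 := by
    intro h0
    refine hs ?_
    rw [hs']
    change g * s' = 0
    rw [h0, zero_mul]
  have hs'0 : s' ≠ 0 := by
    intro h0
    refine hs ?_
    rw [hs', h0, mul_zero]
  have hco : IsCoprime r' s' := by
    have h1 := EuclideanDomain.gcd_eq_gcd_ab r s
    refine ⟨EuclideanDomain.gcdA r s, EuclideanDomain.gcdB r s, ?_⟩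
    apply mul_left_cancel₀ hg0
    have h2 : g = r * EuclideanDomain.gcdA r s + s * EuclideanDomain.gcdB r s := h1
    have hr2 : r = g * r' := hr'
    have hs2 : s = g * s' := hs'
    calc g * (EuclideanDomain.gcdA r s * r' + EuclideanDomain.gcdB r s * s')
        = (g * r') * EuclideanDomain.gcdA r s + (g * s') * EuclideanDomain.gcdB r s := by ring
      _ = g := by rw [← hr2, ← hs2, ← h2]
      _ = g * 1 := (mul_one g).symm
  set a := s'.leadingCoeff with ha
  have ha0 : a ≠ 0 := leadingCoeff_ne_zero.2 hs'0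
  let f : clF X →+* ℂ := algebraMap (clF X) ℂ
  have hcoef : ∀ (q : (clF X)[X]) (n : ℕ), (q.map f).coeff n ∈ X := by
    intro q n
    rw [coeff_map]
    have h1 : (f (q.coeff n) : ℂ) ∈ cl X := (q.coeff n).2
    rwa [hX] at h1
  have hmonic : (C a⁻¹ * s').Monic := by
    rw [mul_comm]
    exact monic_mul_leadingCoeff_inv hs'0
  have hco2 : IsCoprime (C a⁻¹ * r') (C a⁻¹ * s') := by
    obtain ⟨u, v, huv⟩ := hco
    refine ⟨C a * u, C a * v, ?_⟩
    have h1 : (C a : (clF X)[X]) * C a⁻¹ = 1 := by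
      rw [← C_mul, mul_inv_cancel₀ ha0, C_1]
    calc C a * u * (C a⁻¹ * r') + C a * v * (C a⁻¹ * s')
        = (C a * C a⁻¹) * (u * r' + v * s') := by ring
      _ = 1 := by rw [h1, huv, one_mul]
  refine ⟨(C a⁻¹ * r').map f, (C a⁻¹ * s').map f, hcoef _, hcoef _, ?_, hmonic.map f, ?_, ?_⟩
  · have h2 := hco2.map (mapRingHom f)
    exact h2
  · exact hev _ (hmonic.map f).ne_zero (hcoef _)
  · rw [hrs]
    have hge : aeval x g ≠ 0 := by
      have h3 := hev (g.map f) ((Polynomial.map_ne_zero_iff f.injective).2 hg0) (hcoef g)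
      rw [eval_map] at h3
      exact h3
    have hr2 : r = g * r' := hr'
    have hs2 : s = g * s' := hs'
    have h4 : ∀ q : (clF X)[X], (q.map f).eval x = aeval x q := fun q => by
      rw [eval_map]
      rfl
    rw [h4, h4, map_mul, map_mul]
    have hca : aeval x (C a⁻¹ : (clF X)[X]) ≠ 0 := by
      rw [aeval_C]
      exact (_root_.map_ne_zero _).2 (inv_ne_zero ha0)
    rw [mul_div_mul_left _ _ hca]
    conv_lhs => rw [hr2, hs2, map_mul, map_mul]
    rw [mul_div_mul_left _ _ hge]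

section

variable {X E : Set ℂ} {x : ℂ}

/-- the elements of `E` which are rational functions of `x` over `X` -/
theorem rat_mem (hX : Hyper X) (hE : cl E = E) (hxE : x ∈ E) (hxX : x ∉ X)
    (hstab : ∀ γ : ℂ ≃+* ℂ, (∀ z ∈ X, γ z = z) → γ x ∈ E → ∀ z ∈ E, γ z ∈ E) {h : ℂ}
    (hhE : h ∈ E) (hh : h ∈ IntermediateField.adjoin (clF X) ({x} : Set ℂ)) :
    ∃ P Q : ℂ[X], (∀ n, P.coeff n ∈ E ∩ X) ∧ (∀ n, Q.coeff n ∈ E ∩ X) ∧ IsCoprime P Q ∧ Q.Monic ∧
      Q.eval x ≠ 0 ∧ h = P.eval x / Q.eval x := by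
  obtain ⟨P, Q, hP, hQ, hco, hm, hQx, hhx⟩ := exists_rep hX.flat hxX hh
  have hev : ∀ (Q : ℂ[X]) (e : ℂ), e ∉ X → Q ≠ 0 → (∀ n, Q.coeff n ∈ X) → Q.eval e ≠ 0 := by
    intro Q e he hQ hQX h0
    refine he ?_
    rw [← hX.flat]
    exact mem_cl_of_root hQ (fun n => by rw [hX.flat]; exact hQX n) h0
  have hval : ∀ e ∈ E, e ∉ X → P.eval e / Q.eval e ∈ E := by
    intro e heE heX
    obtain ⟨γ, h1, h2⟩ := exists_move (X := X) (by rwa [hX.flat] : x ∉ cl X)
      (by rwa [hX.flat] : e ∉ cl X)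
    rw [hX.flat] at h1
    have h3 := hstab γ h1 (by rw [h2]; exact heE) h hhE
    have h4 : ∀ R : ℂ[X], (∀ n, R.coeff n ∈ X) → γ (R.eval x) = R.eval e := by
      intro R hR
      rw [← eval_map_equiv, h2, map_eq_self_iff.2 fun n => h1 _ (hR n)]
    rw [hhx, map_div₀, h4 P hP, h4 Q hQ] at h3
    exact h3
  have hinf : {e | e ∈ E ∧ e ∉ X}.Infinite := by
    have h1 : ∀ n : ℕ, x + n ∈ E ∧ x + n ∉ X := by
      intro n
      have hn : ∀ Y : Set ℂ, (n : ℂ) ∈ clF Y := fun Y => natCast_mem (clF Y) n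
      constructor
      · rw [← hE]
        have h2 : x ∈ clF E := by rw [mem_clF, hE]; exact hxE
        exact (clF E).add_mem h2 (hn E)
      · intro h2
        have h3 : x + n ∈ clF X := by rw [mem_clF, hX.flat]; exact h2
        have h4 := (clF X).sub_mem h3 (hn X)
        rw [add_sub_cancel_right, mem_clF, hX.flat] at h4
        exact hxX h4
    have h2 : Function.Injective fun n : ℕ => x + (n : ℂ) := by
      intro a b hab
      have h3 : x + (a : ℂ) = x + (b : ℂ) := hab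
      exact_mod_cast add_left_cancel h3
    exact (Set.infinite_range_of_injective h2).mono (by
      rintro _ ⟨n, rfl⟩
      exact h1 n)
  have hfix : ∀ δ : ℂ ≃+* ℂ, (∀ z ∈ E, δ z = z) →
      P.map (δ : ℂ →+* ℂ) = P ∧ Q.map (δ : ℂ →+* ℂ) = Q := by
    intro δ hδ
    refine reduced_eq hco hm (hm.map _) (by rw [hm.natDegree_map]) ?_
    rw [← sub_eq_zero]
    refine eq_zero_of_infinite_isRoot _ (hinf.mono ?_)
    rintro e ⟨heE, heX⟩
    have h1 := hδ _ (hval e heE heX)
    have h2 : Q.eval e ≠ 0 := hev Q e heX hm.ne_zero hQ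
    have h3 : δ (Q.eval e) ≠ 0 := (map_ne_zero_iff δ δ.injective).2 h2
    have h4 : ∀ R : ℂ[X], (R.map (δ : ℂ →+* ℂ)).eval e = δ (R.eval e) := by
      intro R
      have h5 := eval_map_equiv δ R e
      rwa [hδ e heE] at h5
    rw [map_div₀, div_eq_div_iff h3 h2] at h1
    change eval e _ = 0
    rw [eval_sub, eval_mul, eval_mul, h4, h4, h1, sub_self]
  refine ⟨P, Q, fun n => ⟨?_, hP n⟩, fun n => ⟨?_, hQ n⟩, hco, hm, hQx, hhx⟩
  · exact mem_of_fix hE fun δ hδ => map_eq_self_iff.1 (hfix δ hδ).1 n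
  · exact mem_of_fix hE fun δ hδ => map_eq_self_iff.1 (hfix δ hδ).2 n

/-- conjugate elements over a subfield differ by an automorphism over the subfield -/
theorem exists_aut_conj {K : IntermediateField ℚ ℂ} (L : IntermediateField K ℂ) {z w : ℂ}
    (hint : IsIntegral L z) (hw : aeval w (minpoly L z) = 0) :
    ∃ τ : ℂ ≃+* ℂ, (∀ y ∈ L, τ y = y) ∧ τ z = w := by
  have hirr : Fact (Irreducible (minpoly L z)) := ⟨minpoly.irreducible hint⟩
  let S := AdjoinRoot (minpoly L z)
  let φ : S →ₐ[L] ℂ := AdjoinRoot.liftAlgHom (minpoly L z) (Algebra.ofId L ℂ) z (by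
    have := minpoly.aeval L z
    exact this)
  let ψ : S →ₐ[L] ℂ := AdjoinRoot.liftAlgHom (minpoly L z) (Algebra.ofId L ℂ) w hw
  have hfin : Algebra.FiniteType L S := by
    have : Module.Finite L S := (AdjoinRoot.powerBasis (minpoly.ne_zero hint)).finite
    infer_instance
  obtain ⟨α, hα⟩ := exists_aut (R := L) (S := S) (algebraMap L S).injective
    trdeg_lt_aleph0_of_finiteType φ.toRingHom ψ.toRingHom φ.toRingHom.injective
    ψ.toRingHom.injective (by
      ext x
      change φ (algebraMap L S x) = ψ (algebraMap L S x)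
      rw [AlgHom.commutes, AlgHom.commutes])
  refine ⟨α, fun y hy => ?_, ?_⟩
  · have h1 := hα (algebraMap L S ⟨y, hy⟩)
    change α (φ _) = ψ _ at h1
    rw [AlgHom.commutes, AlgHom.commutes] at h1
    exact h1
  · have h1 := hα (AdjoinRoot.root _)
    have h2 : φ (AdjoinRoot.root _) = z := AdjoinRoot.liftAlgHom_root _ _ _ _
    have h3 : ψ (AdjoinRoot.root _) = w := AdjoinRoot.liftAlgHom_root _ _ _ _
    change α (φ _) = ψ _ at h1
    rw [h2, h3] at h1
    exact h1

/-- an algebraic element outside a subfield is moved by an automorphism over the subfield -/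
theorem mem_of_fix_algebraic {K : IntermediateField ℚ ℂ} (L : IntermediateField K ℂ) {z : ℂ}
    (hint : IsIntegral L z) (h : ∀ τ : ℂ ≃+* ℂ, (∀ y ∈ L, τ y = y) → τ z = z) : z ∈ L := by
  by_contra hzL
  have hdeg : (minpoly L z).natDegree ≠ 1 := by
    intro h
    rw [minpoly.natDegree_eq_one_iff] at h
    obtain ⟨x, hx⟩ := h
    exact hzL (by rw [← hx]; exact x.2)
  have hpos : 0 < (minpoly L z).natDegree := minpoly.natDegree_pos hint
  have hsep : (minpoly L z).Separable := (minpoly.irreducible hint).separable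
  have hcard : 1 < Fintype.card ((minpoly L z).rootSet ℂ) := by
    rw [Polynomial.card_rootSet_eq_natDegree hsep (IsAlgClosed.splits _)]
    omega
  have hzr : z ∈ (minpoly L z).rootSet ℂ := by
    rw [Polynomial.mem_rootSet]
    exact ⟨minpoly.ne_zero hint, minpoly.aeval L z⟩
  obtain ⟨⟨w, hw⟩, hwz⟩ :=
    Fintype.exists_ne_of_one_lt_card hcard (⟨z, hzr⟩ : (minpoly L z).rootSet ℂ)
  have hwz' : w ≠ z := fun h => hwz (Subtype.ext h)
  rw [Polynomial.mem_rootSet] at hw
  obtain ⟨τ, h1, h2⟩ := exists_aut_conj L hint hw.2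
  exact hwz' (h2.symm.trans (h τ h1))

/-- the elements of the field `X(x)` are fixed by the automorphisms which fix `X` and `x` -/
theorem fix_adjoin {X : Set ℂ} {x : ℂ} {τ : ℂ ≃+* ℂ} (h1 : ∀ z ∈ cl X, τ z = z) (h2 : τ x = x) :
    ∀ y ∈ IntermediateField.adjoin (clF X) ({x} : Set ℂ), τ y = y := by
  intro y hy
  induction hy using IntermediateField.adjoin_induction with
  | mem z hz =>
    rw [Set.mem_singleton_iff] at hz
    rw [hz, h2]
  | algebraMap z => exact h1 _ z.2
  | add a b _ _ ha hb => rw [map_add, ha, hb]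
  | inv a _ ha => rw [map_inv₀, ha]
  | mul a b _ _ ha hb => rw [map_mul, ha, hb]

theorem isIntegral_adjoin {X : Set ℂ} {x y : ℂ} (hy : y ∈ cl (insert x X)) :
    IsIntegral (IntermediateField.adjoin (clF X) ({x} : Set ℂ)) y := by
  have h1 : IsAlgebraic (Algebra.adjoin ℚ (insert x X)) y := hy
  obtain ⟨p, hp, hpy⟩ := h1
  have hle : ∀ z ∈ Algebra.adjoin ℚ (insert x X),
      z ∈ IntermediateField.adjoin (clF X) ({x} : Set ℂ) := by
    intro z hz
    induction hz using Algebra.adjoin_induction with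
    | mem z hz =>
      rcases hz with rfl | hz
      · exact IntermediateField.mem_adjoin_simple_self _ _
      · exact (IntermediateField.adjoin (clF X) ({x} : Set ℂ)).algebraMap_mem
          ⟨z, subset_cl _ hz⟩
    | algebraMap r =>
      exact (IntermediateField.adjoin (clF X) ({x} : Set ℂ)).algebraMap_mem (algebraMap ℚ (clF X) r)
    | add a b _ _ ha hb => exact add_mem ha hb
    | mul a b _ _ ha hb => exact mul_mem ha hb
  let f : Algebra.adjoin ℚ (insert x X) →+* IntermediateField.adjoin (clF X) ({x} : Set ℂ) :=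
    { toFun := fun z => ⟨z, hle z z.2⟩
      map_one' := rfl
      map_mul' := fun _ _ => rfl
      map_zero' := rfl
      map_add' := fun _ _ => rfl }
  have hf : Function.Injective f := by
    intro a b hab
    have h2 : (f a : ℂ) = f b := congrArg Subtype.val hab
    exact Subtype.ext h2
  have h3 : IsAlgebraic (IntermediateField.adjoin (clF X) ({x} : Set ℂ)) y := by
    refine ⟨p.map f, (Polynomial.map_ne_zero_iff hf).2 hp, ?_⟩
    rw [aeval_def, eval₂_map]
    exact hpy
  exact h3.isIntegral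

/-- **`E` is algebraic over the field generated by `E ∩ X` and `x`** -/
theorem subset_cl_insert (hX : Hyper X) (hE : cl E = E) (hxE : x ∈ E) (hxX : x ∉ X)
    (hstab : ∀ γ : ℂ ≃+* ℂ, (∀ z ∈ X, γ z = z) → γ x ∈ E → ∀ z ∈ E, γ z ∈ E) :
    E ⊆ cl (insert x (E ∩ X)) := by
  intro y hy
  let L := IntermediateField.adjoin (clF X) ({x} : Set ℂ)
  have hint : IsIntegral L y := isIntegral_adjoin (hX.span x hxX y)
  let m : ℂ[X] := (minpoly L y).map (algebraMap L ℂ)
  have hmm : m.Monic := (minpoly.monic hint).map _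
  have hroots : ∀ w ∈ m.roots, w ∈ (algebraMap (clF E) ℂ).range := by
    intro w hw
    rw [mem_roots hmm.ne_zero, IsRoot.def, eval_map] at hw
    obtain ⟨τ, h1, h2⟩ := exists_aut_conj L hint hw
    have h3 : τ y ∈ E := by
      refine hstab τ (fun z hz => ?_) ?_ y hy
      · exact h1 z (L.algebraMap_mem ⟨z, subset_cl _ hz⟩)
      · rw [h1 x (IntermediateField.mem_adjoin_simple_self _ _)]
        exact hxE
    rw [h2] at h3
    exact ⟨⟨w, subset_cl _ h3⟩, rfl⟩
  have hlift : m ∈ Polynomial.lifts (algebraMap (clF E) ℂ) :=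
    (IsAlgClosed.splits m).mem_lift_of_roots_mem_range hmm _ hroots
  rw [Polynomial.lifts_iff_coeff_lifts] at hlift
  rw [← cl_cl]
  refine mem_cl_of_root hmm.ne_zero (fun n => ?_) (z := y) ?_
  · rw [cl_cl]
    have h1 : m.coeff n ∈ E := by
      obtain ⟨c, hc⟩ := hlift n
      have h0 : (c : ℂ) ∈ cl E := c.2
      rw [hE] at h0
      rw [← hc]
      exact h0
    have h2 : m.coeff n ∈ L := by
      rw [coeff_map]
      exact ((minpoly L y).coeff n).2
    obtain ⟨P, Q, hP, hQ, -, -, hQx, hPQ⟩ := rat_mem hX hE hxE hxX hstab h1 h2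
    rw [hPQ]
    have hx : x ∈ cl (insert x (E ∩ X)) := subset_cl _ (Set.mem_insert _ _)
    have h3 : P.eval x ∈ clF (insert x (E ∩ X)) :=
      eval_mem_cl (fun n => subset_cl _ (Or.inr (hP n))) hx
    have h4 : Q.eval x ∈ clF (insert x (E ∩ X)) :=
      eval_mem_cl (fun n => subset_cl _ (Or.inr (hQ n))) hx
    exact div_mem h3 h4
  · rw [eval_map]
    exact minpoly.aeval L y

end

end Pool.Agent.AHH
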