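import Mathlib
import Pool.Agent.AHH.Stab
import Pool.Agent.AHH.Der

/-!
# A transcendence basis of `ℂ` all but one of whose elements see no real numbers

We construct a transcendence basis `{t} ∪ T` of `ℂ` such that the only real numbers which are
algebraic over `ℚ(T)` are the real algebraic numbers.
-/

namespace Pool.Agent.AHH

open Pool.Agent.AHC Polynomial

/-- the number `t (s - j)² / (s (s - 2 j))` -/
noncomputable def bb (j t s : ℂ) : ℂ := t * ((s - j) * (s - j)) / (s * (s - j - j))

theorem D_bb {D : Derivation ℚ ℂ ℂ} {j t s : ℂ} (hj : j * j = -1) (hDj : D j = 0)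
    (hs : s ≠ 0) (hs2 : s - j - j ≠ 0) :
    D (bb j t s) * (s * (s - j - j)) ^ 2 =
      D t * ((s - j) * (s - j)) * (s * (s - j - j)) + 2 * t * (s - j) * D s := by
  have hq : s * (s - j - j) ≠ 0 := mul_ne_zero hs hs2
  have h1 : bb j t s * (s * (s - j - j)) = t * ((s - j) * (s - j)) := div_mul_cancel₀ _ hq
  have h2 := congrArg D h1
  simp only [D.leibniz, map_sub, hDj, smul_eq_mul, sub_zero] at h2
  linear_combination (s * (s - j - j)) * h2 - (2 * s - 2 * j) * D s * h1 -
    2 * t * (s - j) * D s * hj

theorem D_I (D : Derivation ℚ ℂ ℂ) : D Complex.I = 0 :=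
  derivation_eq_zero (S := ∅) (fun _ h => h.elim) (I_mem_cl _)

theorem D_half (D : Derivation ℚ ℂ ℂ) : D (1 / 2 : ℂ) = 0 := by
  have h1 := D.map_algebraMap (1 / 2 : ℚ)
  have h2 : algebraMap ℚ ℂ (1 / 2 : ℚ) = 1 / 2 := by norm_num
  rwa [h2] at h1

theorem exists_base2 : ∃ (t : ℂ) (T : Set ℂ), t ∉ T ∧ MC.IsBase (insert t T) ∧
    ∀ h ∈ cl T, cc h = h → h ∈ cl ∅ := by
  classical
  obtain ⟨X, hX, hXR⟩ := exists_real_base
  have hXne : X.Nonempty := by
    rw [Set.nonempty_iff_ne_empty]
    rintro rfl
    have h1 := base_mk hX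
    rw [Cardinal.mk_complex, Cardinal.mk_emptyCollection] at h1
    exact (Cardinal.continuum_pos.ne h1)
  obtain ⟨t, ht⟩ := hXne
  have hindep : ∀ x ∈ X, x ∉ cl (X \ {x}) := by
    intro x hx h
    have h1 := hX.indep.notMem_closure_sdiff_of_mem hx
    rw [closure_eq] at h1
    exact h1 h
  have hX0 : ∀ x ∈ X, x ≠ 0 := by
    rintro x hx rfl
    exact hindep _ hx (clF _).zero_mem
  have hXcc : ∀ x ∈ X, cc x = x := by
    intro x hx
    obtain ⟨r, rfl⟩ := hXR hx
    rw [cc_apply]
    exact Complex.conj_ofReal r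
  have hXI : ∀ x ∈ X, ∀ j : ℂ, j * j = -1 → x - j ≠ 0 := by
    intro x hx j hj h
    obtain ⟨r, rfl⟩ := hXR hx
    rw [sub_eq_zero] at h
    rw [← h] at hj
    have h2 := congrArg Complex.re hj
    simp at h2
    nlinarith
  have hXII : ∀ x ∈ X, ∀ j : ℂ, j * j = -1 → x - j - j ≠ 0 := by
    intro x hx j hj h
    obtain ⟨r, rfl⟩ := hXR hx
    have h1 : (r : ℂ) = 2 * j := by linear_combination h
    have h3 : (r : ℂ) * r = -4 := by
      rw [h1]
      linear_combination 4 * hj
    have h2 := congrArg Complex.re h3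
    simp at h2
    nlinarith
  have hcc0 : cc Complex.I = -Complex.I := by rw [cc_apply, Complex.conj_I]
  have hI2 : Complex.I * Complex.I = -1 := Complex.I_mul_I
  have hI3 : (-Complex.I) * (-Complex.I) = -1 := by rw [neg_mul_neg, Complex.I_mul_I]
  have ht0 : t ≠ 0 := hX0 t ht
  -- the derivations `D₁` and `D₂`
  have hDj : ∀ j : ℂ, ∃ D : Derivation ℚ ℂ ℂ, D t = t ∧
      ∀ s ∈ X \ {t}, D s = s - 1 / 2 * (s * s * s) + 3 * (1 / 2) * j * (s * s) := by
    intro j
    obtain ⟨D, hD⟩ := exists_derivation hX.indep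
      (fun s => if s = t then t else s - 1 / 2 * (s * s * s) + 3 * (1 / 2) * j * (s * s))
    refine ⟨D, ?_, fun s hs => ?_⟩
    · rw [hD t ht, if_pos rfl]
    · rw [hD s hs.1, if_neg]
      exact hs.2
  have hkill : ∀ (j : ℂ) (D : Derivation ℚ ℂ ℂ), j * j = -1 → D j = 0 → D t = t →
      (∀ s ∈ X \ {t}, D s = s - 1 / 2 * (s * s * s) + 3 * (1 / 2) * j * (s * s)) →
      ∀ s ∈ X \ {t}, D (bb j t s) = 0 := by
    intro j D hj hj0 hDt hDs s hs
    have h1 := D_bb (D := D) (t := t) hj hj0 (hX0 s hs.1) (hXII s hs.1 j hj)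
    rw [hDt, hDs s hs] at h1
    have h2 : t * ((s - j) * (s - j)) * (s * (s - j - j)) + 2 * t * (s - j) *
        (s - 1 / 2 * (s * s * s) + 3 * (1 / 2) * j * (s * s)) = 0 := by
      linear_combination 2 * t * (s - j) * s * hj
    rw [h2] at h1
    rcases mul_eq_zero.1 h1 with h3 | h3
    · exact h3
    · exact absurd h3 (pow_ne_zero _ (mul_ne_zero (hX0 s hs.1) (hXII s hs.1 j hj)))
  obtain ⟨D1, hD1t, hD1s⟩ := hDj Complex.I
  obtain ⟨D2, hD2t, hD2s⟩ := hDj (-Complex.I)
  have hD1 := hkill _ D1 hI2 (D_I D1) hD1t hD1s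
  have hD2 := hkill _ D2 hI3 (by rw [map_neg, D_I, neg_zero]) hD2t hD2s
  let T : Set ℂ := bb Complex.I t '' (X \ {t})
  have hT1 : ∀ h ∈ cl T, D1 h = 0 := by
    intro h hh
    refine derivation_eq_zero (S := T) ?_ hh
    rintro _ ⟨s, hs, rfl⟩
    exact hD1 s hs
  have hT2 : ∀ h ∈ cl T, cc h = h → D2 h = 0 := by
    intro h hh hc
    have h1 := map_mem_cl cc hh
    rw [hc] at h1
    refine derivation_eq_zero (S := cc '' T) ?_ h1
    rintro _ ⟨_, ⟨s, hs, rfl⟩, rfl⟩
    have h2 : cc (bb Complex.I t s) = bb (-Complex.I) t s := by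
      simp only [bb, map_div₀, map_mul, map_sub, hXcc t ht, hXcc s hs.1, hcc0]
    rw [h2]
    exact hD2 s hs
  let E : Derivation ℚ ℂ ℂ := (1 / 2 : ℂ) • (D1 + D2)
  have hE : ∀ z, E z = 1 / 2 * (D1 z + D2 z) := fun _ => rfl
  have hEt : E t = t := by
    rw [hE, hD1t, hD2t]
    ring
  have hEs : ∀ s ∈ X \ {t}, E s = s - 1 / 2 * (s * s * s) := by
    intro s hs
    rw [hE, hD1s s hs, hD2s s hs]
    ring
  have hV : ∀ m : ℕ, ∃ V : Derivation ℚ ℂ ℂ, V t = 0 ∧ (∀ s ∈ X \ {t}, V s = s ^ (2 * m + 2)) ∧
      ∀ h, D1 h = 0 → D2 h = 0 → V h = 0 := by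
    intro m
    induction m with
    | zero =>
      refine ⟨(-(1 / 3) * Complex.I : ℂ) • (D1 - D2), ?_, fun s hs => ?_, fun h h1 h2 => ?_⟩
      · rw [Derivation.smul_apply, Derivation.sub_apply, hD1t, hD2t, sub_self, smul_zero]
      · rw [Derivation.smul_apply, Derivation.sub_apply, hD1s s hs, hD2s s hs, smul_eq_mul]
        linear_combination (-(s * s)) * hI2
      · rw [Derivation.smul_apply, Derivation.sub_apply, h1, h2, sub_self, smul_zero]
    | succ m ih =>
      obtain ⟨V, hVt, hVs, hVh⟩ := ih
      have hm : (1 : ℂ) - 2 * m ≠ 0 := by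
        intro h
        have h1 : ((1 : ℤ) : ℂ) = ((2 * m : ℤ) : ℂ) := by
          push_cast
          linear_combination h
        have h2 := Int.cast_injective (α := ℂ) h1
        omega
      refine ⟨(2 / (1 - 2 * m) : ℂ) • (⁅E, V⁆ - (2 * m + 1 : ℂ) • V), ?_, fun s hs => ?_,
        fun h h1 h2 => ?_⟩
      · rw [Derivation.smul_apply, Derivation.sub_apply, Derivation.smul_apply,
          Derivation.commutator_apply, hVt, hEt, hVt, map_zero]
        simp
      · rw [Derivation.smul_apply, Derivation.sub_apply, Derivation.smul_apply,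
          Derivation.commutator_apply, hVs s hs, hEs s hs, Derivation.leibniz_pow, hEs s hs]
        simp only [map_sub, D_half, Derivation.leibniz, hVs s hs, smul_eq_mul, nsmul_eq_mul]
        have h3 : 2 * m + 2 - 1 = 2 * m + 1 := by omega
        rw [h3]
        push_cast
        have h4 : 2 * (m + 1) + 2 = 2 * m + 4 := by ring
        rw [h4]
        field_simp
        ring
      · rw [Derivation.smul_apply, Derivation.sub_apply, Derivation.smul_apply,
          Derivation.commutator_apply, hVh h h1 h2]
        have h3 : E h = 0 := by rw [hE, h1, h2, add_zero, mul_zero]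
        rw [h3, map_zero, map_zero]
        simp
  refine ⟨t, T, ?_, ?_, ?_⟩
  · rintro ⟨s, hs, hst⟩
    have h1 := hD1 s hs
    rw [hst, hD1t] at h1
    exact ht0 h1
  · -- basis
    have hind : MC.Indep (insert t T) := by
      rw [Matroid.indep_iff_forall_notMem_closure_sdiff]
      rintro e (rfl | he) h
      · rw [closure_eq] at h
        have h1 : insert e T \ {e} ⊆ T := by
          rintro z ⟨hz | hz, hz'⟩
          · exact absurd hz hz'
          · exact hz
        have h2 := hT1 _ (cl_mono h1 h)
        rw [hD1t] at h2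
        exact ht0 h2
      · obtain ⟨s, hs, rfl⟩ := he
        rw [closure_eq] at h
        obtain ⟨D, hD⟩ := exists_derivation hX.indep (fun x => if x = s then 1 else 0)
        have hDt : D t = 0 := by
          rw [hD t ht, if_neg]
          rintro rfl
          exact hs.2 rfl
        have hDs : D s = 1 := by rw [hD s hs.1, if_pos rfl]
        have h1 : D (bb Complex.I t s) = 0 := by
          refine derivation_eq_zero ?_ h
          rintro z ⟨hz | ⟨s', hs', rfl⟩, hz'⟩
          · rw [hz]
            exact hDt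
          · have hne : s' ≠ s := by
              rintro rfl
              exact hz' rfl
            have h2 := D_bb (D := D) (t := t) hI2 (D_I D) (hX0 s' hs'.1)
              (hXII s' hs'.1 _ hI2)
            rw [hDt, hD s' hs'.1, if_neg hne] at h2
            have h3 : D (bb Complex.I t s') * (s' * (s' - Complex.I - Complex.I)) ^ 2 = 0 := by
              rw [h2]
              ring
            rcases mul_eq_zero.1 h3 with h4 | h4
            · exact h4
            · exact absurd h4 (pow_ne_zero _ (mul_ne_zero (hX0 s' hs'.1)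
                (hXII s' hs'.1 _ hI2)))
        have h2 := D_bb (D := D) (t := t) hI2 (D_I D) (hX0 s hs.1) (hXII s hs.1 _ hI2)
        rw [h1, hDt, hDs] at h2
        have h3 : t * (s - Complex.I) = 0 := by linear_combination -(1 / 2) * h2
        exact (mul_ne_zero ht0 (hXI s hs.1 _ hI2)) h3
    refine hind.isBase_of_spanning ?_
    rw [Matroid.spanning_iff]
    refine ⟨?_, by simp⟩
    have h1 : X ⊆ cl (insert t T) := by
      intro s hs
      by_cases hst : s = t
      · rw [hst]
        exact subset_cl _ (Set.mem_insert _ _)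
      have hs' : s ∈ X \ {t} := ⟨hs, hst⟩
      have hbF : bb Complex.I t s ∈ clF (insert t T) := subset_cl _ (Or.inr ⟨s, hs', rfl⟩)
      have htF : t ∈ clF (insert t T) := subset_cl _ (Set.mem_insert _ _)
      have hIF : Complex.I ∈ clF (insert t T) := I_mem_cl _
      let b := bb Complex.I t s
      have hroot : (b - t) * s ^ 2 + (-2 * Complex.I * (b - t)) * s + t = 0 := by
        have h2 : b * (s * (s - Complex.I - Complex.I)) =
            t * ((s - Complex.I) * (s - Complex.I)) :=
          div_mul_cancel₀ _ (mul_ne_zero (hX0 s hs) (hXII s hs _ hI2))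
        linear_combination h2 + t * hI2
      let p : Polynomial ℂ := C (b - t) * Polynomial.X ^ 2 +
        C (-2 * Complex.I * (b - t)) * Polynomial.X + C t
      have h2F : (-2 : ℂ) ∈ clF (insert t T) := by
        have h3 := (clF (insert t T)).algebraMap_mem (-2 : ℚ)
        rwa [map_neg, map_ofNat] at h3
      refine mem_cl_of_root (p := p) ?_ ?_ ?_
      · intro hp
        have h3 := congrArg (fun q => coeff q 0) hp
        simp [p] at h3
        exact ht0 h3
      · intro n
        have h3 : p.coeff n ∈ clF (insert t T) := by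
          simp only [p, coeff_add, coeff_C_mul, coeff_X_pow, coeff_X, coeff_C]
          refine add_mem (add_mem (mul_mem (sub_mem hbF htF) ?_)
            (mul_mem (mul_mem (mul_mem h2F hIF) (sub_mem hbF htF)) ?_)) ?_
          · split_ifs
            · exact one_mem _
            · exact zero_mem _
          · split_ifs
            · exact one_mem _
            · exact zero_mem _
          · split_ifs
            · exact htF
            · exact zero_mem _
        exact h3
      · simp only [p, eval_add, eval_mul, eval_C, eval_pow, eval_X]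
        exact hroot
    rw [closure_eq]
    apply Set.eq_univ_of_univ_subset
    have h2 : cl X = Set.univ := by
      rw [← closure_eq, hX.closure_eq]
      simp
    rw [← h2]
    exact cl_subset_iff.2 h1
  · -- the real elements
    intro h hh hc
    have h1 := hT1 h hh
    have h2 := hT2 h hh hc
    have hhX : h ∈ cl X := by
      rw [← closure_eq, hX.closure_eq]
      simp
    obtain ⟨I, hIX, hIf, -, hhI⟩ := exists_finite_of_mem_cl hhX
    let J : Finset ℂ := hIf.toFinset.erase t
    have hJ : ∀ s ∈ J, s ∈ X \ {t} := by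
      intro s hs
      rw [Finset.mem_erase] at hs
      exact ⟨hIX (by simpa using hs.2), hs.1⟩
    have htJ : t ∉ J := Finset.notMem_erase _ _
    have hhJ : h ∈ cl ((insert t J : Finset ℂ) : Set ℂ) := by
      refine cl_mono ?_ hhI
      intro z hz
      simp only [J, Finset.coe_insert, Finset.coe_erase, Set.Finite.coe_toFinset]
      by_cases hzt : z = t
      · exact Or.inl hzt
      · exact Or.inr ⟨hz, hzt⟩
    obtain ⟨c, hcD⟩ := exists_partials hhJ
    simp only [Finset.sum_insert htJ] at hcD
    have hpoly : ∀ q : Polynomial ℂ, ∑ s ∈ J, c s * (s ^ 2 * q.eval (s ^ 2)) = 0 := by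
      intro q
      induction q using Polynomial.induction_on' with
      | add p q hp hq =>
        simp only [eval_add, mul_add, Finset.sum_add_distrib, hp, hq, add_zero]
      | monomial m a =>
        obtain ⟨V, hVt, hVs, hVh⟩ := hV m
        have h3 := hVh h h1 h2
        rw [hcD, hVt, mul_zero, zero_add] at h3
        simp only [eval_monomial]
        calc ∑ s ∈ J, c s * (s ^ 2 * (a * (s ^ 2) ^ m)) = a * ∑ s ∈ J, c s * V s := by
              rw [Finset.mul_sum]
              refine Finset.sum_congr rfl fun s hs => ?_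
              rw [hVs s (hJ s hs)]
              ring
          _ = 0 := by rw [h3, mul_zero]
    have hsq : ∀ s ∈ J, ∀ s' ∈ J, s ≠ s' → s ^ 2 - s' ^ 2 ≠ 0 := by
      intro s hs s' hs' hne h3
      have hmem : s' ∈ clF (X \ {s}) := subset_cl _ ⟨(hJ s' hs').1, fun h4 => hne h4.symm⟩
      have h4 : (s - s') * (s + s') = 0 := by linear_combination h3
      rcases mul_eq_zero.1 h4 with h5 | h5
      · exact hne (sub_eq_zero.1 h5)
      · refine hindep s (hJ s hs).1 ?_
        have h6 := (clF (X \ {s})).neg_mem hmem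
        rwa [← eq_neg_of_add_eq_zero_left h5] at h6
    have hc0 : ∀ s ∈ J, c s = 0 := by
      intro s hs
      have h3 := hpoly (∏ s' ∈ J.erase s, (Polynomial.X - C (s' ^ 2)))
      rw [Finset.sum_eq_single_of_mem s hs] at h3
      · rw [eval_prod] at h3
        rcases mul_eq_zero.1 h3 with h4 | h4
        · exact h4
        · exfalso
          rcases mul_eq_zero.1 h4 with h5 | h5
          · exact pow_ne_zero _ (hX0 s (hJ s hs).1) h5
          · rw [Finset.prod_eq_zero_iff] at h5
            obtain ⟨s', hs', h6⟩ := h5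
            rw [Finset.mem_erase] at hs'
            rw [eval_sub, eval_X, eval_C] at h6
            exact hsq s hs s' hs'.2 (fun h7 => hs'.1 h7.symm) h6
      · intro s' hs' hne
        rw [eval_prod, Finset.prod_eq_zero (Finset.mem_erase.2 ⟨hne, hs'⟩), mul_zero, mul_zero]
        rw [eval_sub, eval_X, eval_C, sub_self]
    have hct : c t = 0 := by
      have h3 : E h = 0 := by rw [hE, h1, h2, add_zero, mul_zero]
      rw [hcD, hEt, Finset.sum_eq_zero fun s hs => by rw [hc0 s hs, zero_mul], add_zero] at h3
      exact (mul_eq_zero.1 h3).resolve_right ht0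
    refine mem_of_derivation fun D => ?_
    rw [hcD, hct, Finset.sum_eq_zero fun s hs => by rw [hc0 s hs, zero_mul], zero_mul, add_zero]

end Pool.Agent.AHH
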