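import Mathlib
import Pool.Agent.AHH.Stab

/-!
# The closed submonoid generated by the automorphisms over hyperplanes

If `H` is a closed submonoid of `Aut ℂ` then `H` contains all automorphisms which fix the
intersection of all listed hyperplanes.
-/

namespace Pool.Agent.AHH

open Pool.Agent.AHC Polynomial

variable {H : Set (ℂ ≃+* ℂ)}

theorem exists_listed {A : Set ℂ} {x : ℂ} (hx : x ∉ ccl H A) :
    ∃ X, Listed H X ∧ A ⊆ X ∧ x ∉ X := by
  by_contra h
  push Not at h
  exact hx h

theorem image_eq_of_fix {A : Set ℂ} {g : ℂ ≃+* ℂ} (h : ∀ a ∈ A, g a = a) : g '' A = A := by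
  ext z
  constructor
  · rintro ⟨a, ha, rfl⟩
    rw [h a ha]
    exact ha
  · intro hz
    exact ⟨z, hz, h z hz⟩

/-- the intersection of `ccl H (insert x A)` with a listed hyperplane containing `A` but not `x` -/
theorem ccl_inter_subset (hH : IsClosedMonoid H) {A X : Set ℂ} {x : ℂ} (hX : Listed H X)
    (hA : A ⊆ X) (hx : x ∉ X) : ccl H (insert x A) ∩ X ⊆ ccl H A := by
  rintro b ⟨hb, hbX⟩
  by_contra hbA
  have h1 := ccl_exchange hH (fun h => hx (h X hX hA)) hbA hb
  exact hx (h1 X hX (Set.insert_subset hbX hA))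

theorem ccl_stable (hH : IsClosedMonoid H) {A X : Set ℂ} {x : ℂ} (hX : Listed H X)
    (hA : A ⊆ X) (γ : ℂ ≃+* ℂ) (hγ : ∀ z ∈ X, γ z = z) (hx : γ x ∈ ccl H (insert x A)) :
    ∀ z ∈ ccl H (insert x A), γ z ∈ ccl H (insert x A) := by
  intro z hz
  have h1 := map_mem_ccl hH (hX.NN hγ) hz
  rw [Set.image_insert_eq, image_eq_of_fix fun a ha => hγ a (hA ha)] at h1
  exact ccl_le (Set.insert_subset hx ((Set.subset_insert _ _).trans (subset_ccl _))) h1

theorem ccl_insert_subset (hH : IsClosedMonoid H) (A : Set ℂ) (x : ℂ) :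
    ccl H (insert x A) ⊆ cl (insert x (ccl H A)) := by
  by_cases hx : x ∈ ccl H A
  · refine (ccl_le (Set.insert_subset hx (subset_ccl A))).trans ?_
    exact (Set.subset_insert _ _).trans (subset_cl _)
  obtain ⟨X, hX, hA, hxX⟩ := exists_listed hx
  refine (subset_cl_insert hX.hyper (cl_ccl _) (subset_ccl _ (Set.mem_insert _ _)) hxX
    (ccl_stable hH hX hA)).trans ?_
  exact cl_mono (Set.insert_subset_insert (ccl_inter_subset hH hX hA hxX))

theorem ccl_eq (hH : IsClosedMonoid H) {A : Set ℂ} (hA : A.Finite) :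
    ccl H A = cl (ccl H ∅ ∪ A) := by
  induction A, hA using Set.Finite.induction_on with
  | empty => rw [Set.union_empty, cl_ccl]
  | @insert x A _ _ ih =>
    apply Set.Subset.antisymm
    · refine (ccl_insert_subset hH A x).trans ?_
      rw [ih, cl_subset_iff]
      rintro z (rfl | hz)
      · exact subset_cl _ (Or.inr (Set.mem_insert _ _))
      · refine cl_mono ?_ hz
        exact Set.union_subset_union_right _ (Set.subset_insert _ _)
    · rw [← cl_ccl (insert x A)]
      refine cl_mono ?_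
      rintro z (hz | hz)
      · exact ccl_mono (Set.empty_subset _) hz
      · exact subset_ccl _ hz

/-- finite sets which are algebraically independent over `F` -/
inductive IndF (F : Set ℂ) : Set ℂ → Prop
  | empty : IndF F ∅
  | insert (A : Set ℂ) (x : ℂ) : IndF F A → x ∉ cl (F ∪ A) → IndF F (insert x A)

theorem IndF.finite {F A : Set ℂ} (h : IndF F A) : A.Finite := by
  induction h with
  | empty => exact Set.finite_empty
  | insert A x _ _ ih => exact ih.insert x

theorem exists_indF (F : Set ℂ) {S : Set ℂ} (hS : S.Finite) :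
    ∃ A, IndF F A ∧ S ⊆ cl (F ∪ A) := by
  induction S, hS using Set.Finite.induction_on with
  | empty => exact ⟨∅, IndF.empty, Set.empty_subset _⟩
  | @insert x S _ _ ih =>
    obtain ⟨A, h1, h2⟩ := ih
    by_cases hx : x ∈ cl (F ∪ A)
    · exact ⟨A, h1, Set.insert_subset hx h2⟩
    · refine ⟨insert x A, IndF.insert A x h1 hx, Set.insert_subset ?_ (h2.trans ?_)⟩
      · exact subset_cl _ (Or.inr (Set.mem_insert _ _))
      · exact cl_mono (Set.union_subset_union_right _ (Set.subset_insert _ _))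

theorem exists_agree (hH : IsClosedMonoid H) {σ : ℂ ≃+* ℂ} (hσ : ∀ z ∈ ccl H ∅, σ z = z)
    {A : Set ℂ} (hA : IndF (ccl H ∅) A) : ∃ g, NN H g ∧ ∀ a ∈ A, g a = σ a := by
  induction hA with
  | empty =>
    exact ⟨RingEquiv.refl ℂ, ⟨hH.one_mem, hH.one_mem, fun _ _ => rfl⟩, fun a ha => absurd ha (by simp)⟩
  | insert A x hA hx ih =>
    obtain ⟨g', hg', h1⟩ := ih
    have hxA : x ∉ ccl H A := by rwa [ccl_eq hH hA.finite]
    let τ : ℂ ≃+* ℂ := σ.trans g'.symm
    have hτA : ∀ a ∈ A, τ a = a := by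
      intro a ha
      change g'.symm (σ a) = a
      rw [RingEquiv.symm_apply_eq, h1 a ha]
    have hτF : ∀ z ∈ ccl H ∅, τ z = z := by
      intro z hz
      change g'.symm (σ z) = z
      rw [RingEquiv.symm_apply_eq, hσ z hz, hg'.fix z hz]
    have hfix : ∀ z ∈ ccl H ∅ ∪ A, τ z = z := by
      rintro z (hz | hz)
      · exact hτF z hz
      · exact hτA z hz
    have hτx : τ x ∉ ccl H A := by
      rw [ccl_eq hH hA.finite]
      intro h
      have h2 := map_mem_cl τ.symm h
      rw [RingEquiv.symm_apply_apply, image_eq_of_fix (symm_fix hfix)] at h2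
      exact hx h2
    obtain ⟨γ, hγ, h3, h4⟩ := exists_NN_move hH hxA hτx
    refine ⟨γ.trans g', hγ.trans hH hg', ?_⟩
    rintro a (rfl | ha)
    · rw [RingEquiv.trans_apply, h4]
      change g' (g'.symm (σ a)) = σ a
      rw [RingEquiv.apply_symm_apply]
    · rw [RingEquiv.trans_apply, h3 a (subset_ccl _ ha), h1 a ha]

theorem fix_adjoin' {B : Set ℂ} {g : ℂ ≃+* ℂ} (h : ∀ z ∈ B, g z = z) :
    ∀ z ∈ IntermediateField.adjoin ℚ B, g z = z := by
  intro y hy
  induction hy using IntermediateField.adjoin_induction with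
  | mem z hz => exact h z hz
  | algebraMap z => simp
  | add a b _ _ ha hb => rw [map_add, ha, hb]
  | inv a _ ha => rw [map_inv₀, ha]
  | mul a b _ _ ha hb => rw [map_mul, ha, hb]

/-- the fixed field of the stabiliser of a finite independent set -/
theorem fix_mem (hH : IsClosedMonoid H) {A : Set ℂ} (hA : IndF (ccl H ∅) A) :
    ∀ f : ℂ, (∀ g, NN H g → (∀ a ∈ A, g a = a) → g f = f) →
      f ∈ IntermediateField.adjoin ℚ (ccl H ∅ ∪ A) := by
  induction hA with
  | empty =>
    intro f hf
    have h1 : f ∈ ccl H ∅ := by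
      by_contra h1
      obtain ⟨g, hg, -, h2⟩ := exists_NN_move hH h1 (add_one_notMem (cl_ccl ∅) h1)
      have h3 := hf g hg fun a ha => absurd ha (by simp)
      rw [h2] at h3
      simp at h3
    exact IntermediateField.subset_adjoin ℚ _ (Or.inl h1)
  | insert A x hA hx ih =>
    intro f hf
    have hxA : x ∉ ccl H A := by rwa [ccl_eq hH hA.finite]
    have hfE : f ∈ ccl H (insert x A) := by
      by_contra h1
      obtain ⟨g, hg, h4, h2⟩ := exists_NN_move hH h1 (add_one_notMem (cl_ccl _) h1)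
      have h3 := hf g hg fun a ha => h4 a (subset_ccl _ ha)
      rw [h2] at h3
      simp at h3
    obtain ⟨X, hX, hAX, hxX⟩ := exists_listed hxA
    have hfL : f ∈ IntermediateField.adjoin (clF X) ({x} : Set ℂ) := by
      refine mem_of_fix_algebraic _ (isIntegral_adjoin (hX.hyper.span x hxX f)) fun τ hτ => ?_
      have h1 : ∀ z ∈ X, τ z = z := fun z hz =>
        hτ z ((IntermediateField.adjoin (clF X) ({x} : Set ℂ)).algebraMap_mem
          ⟨z, subset_cl _ hz⟩)
      refine hf τ (hX.NN h1) ?_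
      rintro a (rfl | ha)
      · exact hτ _ (IntermediateField.mem_adjoin_simple_self _ _)
      · exact h1 a (hAX ha)
    obtain ⟨P, Q, hP, hQ, hco, hm, hQx, hfx⟩ := rat_mem hX.hyper (cl_ccl (insert x A))
      (subset_ccl _ (Set.mem_insert _ _)) hxX (ccl_stable hH hX hAX) hfE hfL
    have hP' : ∀ n, P.coeff n ∈ ccl H A := fun n => ccl_inter_subset hH hX hAX hxX (hP n)
    have hQ' : ∀ n, Q.coeff n ∈ ccl H A := fun n => ccl_inter_subset hH hX hAX hxX (hQ n)
    have key : ∀ g, NN H g → (∀ a ∈ A, g a = a) →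
        P.map (g : ℂ →+* ℂ) = P ∧ Q.map (g : ℂ →+* ℂ) = Q := by
      intro g hg hgA
      have hgpres : ∀ z ∈ ccl H A, g z ∈ ccl H A := by
        intro z hz
        have h1 := map_mem_ccl hH hg hz
        rwa [image_eq_of_fix hgA] at h1
      have hgx : g x ∉ ccl H A := by
        intro h
        have h1 := map_mem_ccl hH hg.symm h
        rw [RingEquiv.symm_apply_apply, image_eq_of_fix (symm_fix hgA)] at h1
        exact hxA h1
      obtain ⟨γ, hγ, h1, h2⟩ := exists_NN_move hH hgx hxA
      have h3 : (g.trans γ) f = f := by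
        refine hf _ (hg.trans hH hγ) ?_
        rintro a (rfl | ha)
        · rw [RingEquiv.trans_apply, h2]
        · rw [RingEquiv.trans_apply, hgA a ha, h1 a (subset_ccl _ ha)]
      have h4 : ∀ R : ℂ[X], (∀ n, R.coeff n ∈ ccl H A) →
          (g.trans γ) (R.eval x) = (R.map (g : ℂ →+* ℂ)).eval x := by
        intro R hR
        rw [RingEquiv.trans_apply, ← eval_map_equiv g, ← eval_map_equiv γ, h2]
        congr 1
        rw [map_eq_self_iff]
        intro n
        rw [coeff_map]
        exact h1 _ (hgpres _ (hR n))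
      have hcoef : ∀ R : ℂ[X], (∀ n, R.coeff n ∈ ccl H A) →
          ∀ n, (R.map (g : ℂ →+* ℂ)).coeff n ∈ ccl H A := by
        intro R hR n
        rw [coeff_map]
        exact hgpres _ (hR n)
      have hmulc : ∀ R R' : ℂ[X], (∀ n, R.coeff n ∈ ccl H A) → (∀ n, R'.coeff n ∈ ccl H A) →
          ∀ n, (R * R').coeff n ∈ clF (ccl H A) := by
        intro R R' hR hR' n
        rw [coeff_mul]
        exact sum_mem fun p _ => mul_mem (subset_cl _ (hR p.1) : R.coeff p.1 ∈ clF (ccl H A))
          (subset_cl _ (hR' p.2))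
      refine reduced_eq hco hm (hm.map _) (by rw [hm.natDegree_map]) ?_
      by_contra hne
      have h5 := sub_ne_zero.2 hne
      refine hxA ?_
      rw [← cl_ccl]
      refine mem_cl_of_root h5 (fun n => ?_) ?_
      · rw [coeff_sub]
        have h6 := hmulc _ _ (hcoef P hP') hQ' n
        have h7 := hmulc _ _ hP' (hcoef Q hQ') n
        exact (clF (ccl H A)).sub_mem h6 h7
      · rw [eval_sub, eval_mul, eval_mul, sub_eq_zero, ← h4 P hP', ← h4 Q hQ']
        rw [hfx, map_div₀] at h3
        have h8 : (g.trans γ) (Q.eval x) ≠ 0 :=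
          (map_ne_zero_iff (g.trans γ) (g.trans γ).injective).2 hQx
        rw [div_eq_div_iff h8 hQx] at h3
        exact h3
    have hmono : IntermediateField.adjoin ℚ (ccl H ∅ ∪ A) ≤
        IntermediateField.adjoin ℚ (ccl H ∅ ∪ insert x A) :=
      IntermediateField.adjoin.mono ℚ _ _
        (Set.union_subset_union_right _ (Set.subset_insert _ _))
    have hx' : x ∈ IntermediateField.adjoin ℚ (ccl H ∅ ∪ insert x A) :=
      IntermediateField.subset_adjoin ℚ _ (Or.inr (Set.mem_insert _ _))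
    have hev : ∀ R : ℂ[X], (∀ g, NN H g → (∀ a ∈ A, g a = a) → R.map (g : ℂ →+* ℂ) = R) →
        R.eval x ∈ IntermediateField.adjoin ℚ (ccl H ∅ ∪ insert x A) := by
      intro R hR
      rw [eval_eq_sum_range]
      refine sum_mem fun i _ => mul_mem (hmono (ih _ fun g hg hgA => ?_)) (pow_mem hx' i)
      exact map_eq_self_iff.1 (hR g hg hgA) i
    rw [hfx]
    exact div_mem (hev P fun g hg hgA => (key g hg hgA).1) (hev Q fun g hg hgA => (key g hg hgA).2)

theorem map_aeval_fix {k : IntermediateField ℚ ℂ} {g : ℂ ≃+* ℂ} (hg : ∀ z ∈ k, g z = z)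
    (r : k[X]) (θ : ℂ) : g (aeval θ r) = aeval (g θ) r := by
  let G : ℂ →ₐ[k] ℂ := { (g : ℂ →+* ℂ) with commutes' := fun z => hg z z.2 }
  exact (Polynomial.aeval_algHom_apply G θ r).symm

theorem exists_agree_algebraic (hH : IsClosedMonoid H) {A : Set ℂ} (hA : IndF (ccl H ∅) A)
    {τ : ℂ ≃+* ℂ} (hτ : ∀ z ∈ ccl H ∅ ∪ A, τ z = z) {S : Set ℂ} (hS : S.Finite)
    (hSA : S ⊆ cl (ccl H ∅ ∪ A)) :
    ∃ g, NN H g ∧ (∀ a ∈ A, g a = a) ∧ ∀ s ∈ S, g s = τ s := by
  classical
  let k : IntermediateField ℚ ℂ := IntermediateField.adjoin ℚ (ccl H ∅ ∪ A)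
  have hkint : ∀ s ∈ S, IsIntegral k s := by
    intro s hs
    have h1 : IsAlgebraic (Algebra.adjoin ℚ (ccl H ∅ ∪ A)) s := hSA hs
    obtain ⟨p, hp, hps⟩ := h1
    let f : Algebra.adjoin ℚ (ccl H ∅ ∪ A) →+* k :=
      { toFun := fun z => ⟨z, IntermediateField.algebra_adjoin_le_adjoin ℚ _ z.2⟩
        map_one' := rfl
        map_mul' := fun _ _ => rfl
        map_zero' := rfl
        map_add' := fun _ _ => rfl }
    have hf : Function.Injective f := by
      intro a b hab
      have h2 : (f a : ℂ) = f b := congrArg Subtype.val hab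
      exact Subtype.ext h2
    have h3 : IsAlgebraic k s := by
      refine ⟨p.map f, (Polynomial.map_ne_zero_iff hf).2 hp, ?_⟩
      rw [aeval_def, eval₂_map]
      exact hps
    exact h3.isIntegral
  have hSfin : Finite S := hS
  have hfd : FiniteDimensional k (IntermediateField.adjoin k S) :=
    IntermediateField.finiteDimensional_adjoin hkint
  obtain ⟨α, hα⟩ := Field.exists_primitive_element k (IntermediateField.adjoin k S)
  let θ : ℂ := α
  have hθint : IsIntegral k θ := by
    have h1 : IsIntegral k α := IsIntegral.of_finite k α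
    exact h1.map (IntermediateField.val (IntermediateField.adjoin k S))
  have hSθ : ∀ s ∈ S, ∃ r : k[X], s = aeval θ r := by
    intro s hs
    have h1 : (⟨s, IntermediateField.subset_adjoin k S hs⟩ : IntermediateField.adjoin k S) ∈
        IntermediateField.adjoin k ({α} : Set (IntermediateField.adjoin k S)) := by
      rw [hα]
      exact IntermediateField.mem_top
    have hαint : IsIntegral k α := IsIntegral.of_finite k α
    rw [← IntermediateField.mem_toSubalgebra,
      IntermediateField.adjoin_simple_toSubalgebra_of_isAlgebraic hαint.isAlgebraic,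
      Algebra.adjoin_singleton_eq_range_aeval] at h1
    obtain ⟨r, hr⟩ := h1
    refine ⟨r, ?_⟩
    have h2 := congrArg (IntermediateField.val (IntermediateField.adjoin k S)) hr
    have h3 : (IntermediateField.val (IntermediateField.adjoin k S)) ((aeval α) r) =
        aeval θ r := (Polynomial.aeval_algHom_apply _ α r).symm
    exact h2.symm.trans h3
  have hgk : ∀ g : ℂ ≃+* ℂ, NN H g → (∀ a ∈ A, g a = a) → ∀ z ∈ k, g z = z := by
    intro g hg hgA
    refine fix_adjoin' ?_
    rintro z (hz | hz)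
    · exact hg.fix z hz
    · exact hgA z hz
  let O : Set ℂ := {w | ∃ g, NN H g ∧ (∀ a ∈ A, g a = a) ∧ w = g θ}
  have hO : O.Finite := by
    refine ((minpoly k θ).rootSet ℂ).toFinite.subset ?_
    rintro _ ⟨g, hg, hgA, rfl⟩
    rw [Polynomial.mem_rootSet]
    refine ⟨minpoly.ne_zero hθint, ?_⟩
    rw [← map_aeval_fix (hgk g hg hgA), minpoly.aeval, map_zero]
  let p : ℂ[X] := ∏ w ∈ hO.toFinset, (X - C w)
  have hp : ∀ g, NN H g → (∀ a ∈ A, g a = a) → p.map (g : ℂ →+* ℂ) = p := by
    intro g hg hgA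
    simp only [p, Polynomial.map_prod, Polynomial.map_sub, map_X, map_C]
    refine Finset.prod_bijective g g.bijective ?_ ?_
    · intro w
      simp only [Set.Finite.mem_toFinset]
      constructor
      · rintro ⟨g', hg', hg'A, rfl⟩
        exact ⟨g'.trans g, hg'.trans hH hg, fun a ha => by
          rw [RingEquiv.trans_apply, hg'A a ha, hgA a ha], rfl⟩
      · rintro ⟨g', hg', hg'A, h⟩
        refine ⟨g'.trans g.symm, hg'.trans hH hg.symm, fun a ha => ?_, ?_⟩
        · rw [RingEquiv.trans_apply, hg'A a ha, symm_fix hgA a ha]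
        · rw [RingEquiv.trans_apply, ← h, RingEquiv.symm_apply_apply]
    · intro w _
      rfl
  have hpk : p ∈ Polynomial.lifts (algebraMap k ℂ) := by
    rw [Polynomial.lifts_iff_coeff_lifts]
    intro n
    have h1 : p.coeff n ∈ k := fix_mem hH hA _ fun g hg hgA => map_eq_self_iff.1 (hp g hg hgA) n
    exact ⟨⟨_, h1⟩, rfl⟩
  obtain ⟨q, hq⟩ := (Polynomial.mem_lifts _).1 hpk
  have hqe : ∀ z : ℂ, aeval z q = p.eval z := by
    intro z
    rw [← hq, eval_map]
    rfl
  have hpe : ∀ z : ℂ, p.eval z = 0 ↔ z ∈ O := by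
    intro z
    simp only [p, eval_prod, Finset.prod_eq_zero_iff, Set.Finite.mem_toFinset, eval_sub, eval_X,
      eval_C, sub_eq_zero]
    constructor
    · rintro ⟨w, hw, rfl⟩
      exact hw
    · intro hz
      exact ⟨z, hz, rfl⟩
  have hθO : θ ∈ O := ⟨RingEquiv.refl ℂ, ⟨hH.one_mem, hH.one_mem, fun _ _ => rfl⟩,
    fun _ _ => rfl, rfl⟩
  have hdvd : minpoly k θ ∣ q := minpoly.dvd k θ (by rw [hqe, hpe]; exact hθO)
  have hτk : ∀ z ∈ k, τ z = z := fix_adjoin' hτ
  have hτθ : τ θ ∈ O := by
    rw [← hpe, ← hqe]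
    obtain ⟨q', hq'⟩ := hdvd
    rw [hq', map_mul, ← map_aeval_fix hτk, minpoly.aeval, map_zero, zero_mul]
  obtain ⟨g, hg, hgA, hgθ⟩ := hτθ
  refine ⟨g, hg, hgA, fun s hs => ?_⟩
  obtain ⟨r, hr⟩ := hSθ s hs
  rw [hr, map_aeval_fix (hgk g hg hgA), map_aeval_fix hτk, hgθ]

/-- **a closed submonoid contains all automorphisms which fix the intersection of the listed
hyperplanes** -/
theorem mem_of_fix_ccl (hH : IsClosedMonoid H) {σ : ℂ ≃+* ℂ} (hσ : ∀ z ∈ ccl H ∅, σ z = z) :
    σ ∈ H := by
  refine hH.closed σ fun S hS => ?_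
  obtain ⟨A, hA, hSA⟩ := exists_indF (ccl H ∅) hS
  obtain ⟨g1, hg1, h1⟩ := exists_agree hH hσ hA
  obtain ⟨g2, hg2, h2, h3⟩ := exists_agree_algebraic hH hA (τ := σ.trans g1.symm) (by
    rintro z (hz | hz)
    · rw [RingEquiv.trans_apply, RingEquiv.symm_apply_eq, hσ z hz, hg1.fix z hz]
    · rw [RingEquiv.trans_apply, RingEquiv.symm_apply_eq, h1 z hz]) hS hSA
  refine ⟨g2.trans g1, hH.mul_mem _ hg2.mem _ hg1.mem, fun s hs => ?_⟩
  rw [RingEquiv.trans_apply, h3 s hs, RingEquiv.trans_apply, RingEquiv.apply_symm_apply]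

/-- **Theorem 1**: a closed submonoid of `Aut ℂ` which contains complex conjugation and all
automorphisms over an algebraically closed subfield `K` contains all automorphisms over the field
of the real elements of `K` -/
theorem fix_real (hH : IsClosedMonoid H) (hc : cc ∈ H) {K : Set ℂ} (hK : cl K = K)
    (hKH : ∀ σ : ℂ ≃+* ℂ, (∀ z ∈ K, σ z = z) → σ ∈ H) (σ : ℂ ≃+* ℂ)
    (hσ : ∀ z ∈ K, cc z = z → σ z = z) : σ ∈ H := by
  have hccs : cc.symm = cc := by
    ext z
    rw [RingEquiv.symm_apply_eq, cc_cc]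
  have hc' : cc.symm ∈ H := by rwa [hccs]
  have hFK : ccl H ∅ ⊆ K := by
    intro z hz
    by_contra hzK
    obtain ⟨X, hX, hKX, hzX⟩ := exists_hyper hK hzK
    exact hzX (hz X ⟨hX, fun σ hσ => hKH σ fun w hw => hσ w (hKX hw)⟩ (Set.empty_subset _))
  have hccF : ∀ z ∈ ccl H ∅, cc z ∈ ccl H ∅ := by
    intro z hz
    have h := map_mem_ccl' hH hc hc' hz
    rwa [Set.image_empty] at h
  have hI : Complex.I ∈ ccl H ∅ := by
    rw [← cl_ccl]
    exact I_mem_cl _
  have hre : ∀ z ∈ ccl H ∅, (z.re : ℂ) ∈ ccl H ∅ ∧ (z.im : ℂ) ∈ ccl H ∅ := by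
    intro z hz
    have h1 := hccF z hz
    rw [← cl_ccl] at hz h1
    have h2 := real_mem_of_pair (F := ccl H ∅) (x := z.re) (y := z.im)
      (by rw [Complex.re_add_im]; exact hz) (by
        have h3 : (z.re : ℂ) - z.im * Complex.I = cc z := by
          rw [cc_apply]
          apply Complex.ext <;> simp
        rw [h3]
        exact h1)
    rw [cl_ccl] at h2
    exact h2
  have hσre : ∀ r : ℝ, (r : ℂ) ∈ ccl H ∅ → σ r = r := fun r hr =>
    hσ r (hFK hr) (by rw [cc_apply]; exact Complex.conj_ofReal r)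
  have hI2 : σ Complex.I = Complex.I ∨ σ Complex.I = -Complex.I := by
    have h1 : σ Complex.I * σ Complex.I = -1 := by
      rw [← map_mul, Complex.I_mul_I, map_neg, map_one]
    have h2 : (σ Complex.I - Complex.I) * (σ Complex.I + Complex.I) = 0 := by
      have h3 := Complex.I_mul_I
      linear_combination h1 - h3
    rcases mul_eq_zero.1 h2 with h | h
    · exact Or.inl (sub_eq_zero.1 h)
    · exact Or.inr (eq_neg_of_add_eq_zero_left h)
  rcases hI2 with h | h
  · refine mem_of_fix_ccl hH fun z hz => ?_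
    conv_lhs => rw [← Complex.re_add_im z]
    rw [map_add, map_mul, hσre _ (hre z hz).1, hσre _ (hre z hz).2, h, Complex.re_add_im]
  · have h1 : σ.trans cc ∈ H := by
      refine mem_of_fix_ccl hH fun z hz => ?_
      rw [RingEquiv.trans_apply]
      conv_lhs => rw [← Complex.re_add_im z]
      rw [map_add, map_mul, hσre _ (hre z hz).1, hσre _ (hre z hz).2, h, map_add, map_mul, map_neg]
      simp only [cc_apply, Complex.conj_ofReal, Complex.conj_I, neg_neg]
      exact Complex.re_add_im z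
    have h2 := hH.mul_mem _ h1 _ hc
    have h3 : (σ.trans cc).trans cc = σ := by
      ext z
      simp only [RingEquiv.trans_apply, cc_cc]
    rwa [h3] at h2

end Pool.Agent.AHH
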