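import Mathlib
import Pool.Agent.AHH.Gen

/-!
# The relative Galois correspondence

Let `F` be a subfield of `ℂ` and `H` a closed submonoid of `Aut ℂ` which contains all automorphisms
over the algebraic closure of `F`.  Then `H` contains every automorphism over `F` which fixes all
elements algebraic over `F` which are fixed by all elements of `H` over `F`.
-/

namespace Pool.Agent.AHH

open Pool.Agent.AHC MvPolynomial

theorem map_cl_fix {S : Set ℂ} {g : ℂ ≃+* ℂ} (hg : ∀ s ∈ S, g s = s) {z : ℂ} (hz : z ∈ cl S) :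
    g z ∈ cl S := by
  have h := map_mem_cl g hz
  rwa [image_eq_of_fix hg] at h

/-- the restriction of an automorphism over `S` to the algebraic closure of `S` -/
noncomputable def resFix {S : Set ℂ} (g : ℂ ≃+* ℂ) (hg : ∀ s ∈ S, g s = s) :
    clF S ≃+* clF S where
  toFun := fun z => ⟨g z, map_cl_fix hg z.2⟩
  invFun := fun z => ⟨g.symm z, map_cl_fix (symm_fix hg) z.2⟩
  left_inv := fun _ => Subtype.ext (g.symm_apply_apply _)
  right_inv := fun _ => Subtype.ext (g.apply_symm_apply _)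
  map_mul' := fun _ _ => Subtype.ext (map_mul g _ _)
  map_add' := fun _ _ => Subtype.ext (map_add g _ _)

theorem resFix_apply {S : Set ℂ} (g : ℂ ≃+* ℂ) (hg : ∀ s ∈ S, g s = s) (z : clF S) :
    (resFix g hg z : ℂ) = g z := rfl

/-- for a finite set `A` there is a finite set `B` of elements algebraic over `S` such that
automorphisms over `S` which agree on `B` agree on `A` up to an automorphism over the algebraic
closure of `S` -/
theorem exists_finite_rel (S : Set ℂ) {A : Set ℂ} (hA : A.Finite) :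
    ∃ B : Set ℂ, B.Finite ∧ B ⊆ cl S ∧ ∀ σ h : ℂ ≃+* ℂ, (∀ s ∈ S, σ s = s) →
      (∀ s ∈ S, h s = s) → (∀ b ∈ B, h b = σ b) →
      ∃ ρ : ℂ ≃+* ℂ, (∀ z ∈ cl S, ρ z = z) ∧ ∀ a ∈ A, h (ρ a) = σ a := by
  classical
  have hfA : Finite A := hA
  let φ : MvPolynomial A (clF S) →ₐ[clF S] ℂ := aeval Subtype.val
  have hfg : (RingHom.ker φ).FG := IsNoetherian.noetherian _
  obtain ⟨W, hW⟩ := hfg
  let B : Set ℂ := ⋃ f ∈ W, (fun c : clF S => (c : ℂ)) '' (f.coeffs : Set (clF S))
  refine ⟨B, ?_, ?_, ?_⟩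
  · refine Set.Finite.biUnion W.finite_toSet fun f _ => ?_
    exact (Finset.finite_toSet _).image _
  · intro z hz
    simp only [B, Set.mem_iUnion] at hz
    obtain ⟨f, -, c, -, rfl⟩ := hz
    exact c.2
  intro σ h hσS hhS hh
  let g : ℂ ≃+* ℂ := σ.trans h.symm
  have hgS : ∀ s ∈ S, g s = s := by
    intro s hs
    change h.symm (σ s) = s
    rw [hσS s hs, symm_fix hhS s hs]
  have hg : ∀ b ∈ B, g b = b := by
    intro b hb
    change h.symm (σ b) = b
    rw [← hh b hb, RingEquiv.symm_apply_apply]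
  let ψ : MvPolynomial A (clF S) →ₐ[clF S] ℂ := aeval (fun a : A => g a)
  let e : MvPolynomial A (clF S) ≃+* MvPolynomial A (clF S) := mapEquiv A (resFix g hgS)
  have heP : ∀ P, e P = map (resFix g hgS : clF S →+* clF S) P := fun P => mapEquiv_apply _ _ _
  have he : ∀ P, ψ (e P) = g (φ P) := by
    intro P
    induction P using MvPolynomial.induction_on with
    | C x =>
      rw [heP, map_C]
      simp only [ψ, φ, algHom_C]
      rfl
    | add P Q hP hQ => rw [map_add, map_add, map_add, map_add, hP, hQ]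
    | mul_X P i hP =>
      rw [map_mul, map_mul, map_mul, map_mul, hP, heP (X i), map_X]
      simp only [ψ, φ, aeval_X]
  have hker : RingHom.ker ψ = RingHom.ker φ := by
    have h1 : RingHom.ker φ = Ideal.comap e (RingHom.ker ψ) := by
      ext P
      rw [Ideal.mem_comap, RingHom.mem_ker, RingHom.mem_ker, he, map_eq_zero_iff g g.injective]
    have h2 : RingHom.ker ψ = Ideal.map e (RingHom.ker φ) := by
      rw [h1, Ideal.map_comap_of_surjective _ e.surjective]
    rw [h2, ← hW, Ideal.map_span]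
    congr 1
    have h3 : ∀ f ∈ W, e f = f := by
      intro f hf
      ext m
      have h4 : coeff m (e f) = resFix g hgS (coeff m f) := by
        rw [heP, coeff_map]
        rfl
      rw [h4, resFix_apply]
      by_cases h0 : coeff m f = 0
      · rw [h0]
        simp
      · refine hg _ ?_
        simp only [B, Set.mem_iUnion]
        refine ⟨f, hf, coeff m f, ?_, rfl⟩
        rw [Finset.mem_coe, MvPolynomial.mem_coeffs_iff]
        exact ⟨m, by rwa [mem_support_iff], rfl⟩
    ext P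
    constructor
    · rintro ⟨f, hf, rfl⟩
      have h5 := h3 f hf
      have h6 : (e : MvPolynomial A (clF S) → MvPolynomial A (clF S)) f ∈
          (W : Set (MvPolynomial A (clF S))) := by
        rw [h5]
        exact hf
      exact h6
    · intro hP
      exact ⟨P, hP, h3 P hP⟩
  let Q := MvPolynomial A (clF S) ⧸ RingHom.ker φ
  let φ' : Q →ₐ[clF S] ℂ := Ideal.Quotient.liftₐ (RingHom.ker φ) φ (fun a ha => ha)
  let ψ' : Q →ₐ[clF S] ℂ := Ideal.Quotient.liftₐ (RingHom.ker φ) ψ
    (fun a ha => by rw [← hker] at ha; exact ha)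
  have hφ' : Function.Injective φ' := by
    rw [injective_iff_map_eq_zero]
    intro x hx
    obtain ⟨P, rfl⟩ := Ideal.Quotient.mk_surjective x
    exact Ideal.Quotient.eq_zero_iff_mem.2 hx
  have hψ' : Function.Injective ψ' := by
    rw [injective_iff_map_eq_zero]
    intro x hx
    obtain ⟨P, rfl⟩ := Ideal.Quotient.mk_surjective x
    refine Ideal.Quotient.eq_zero_iff_mem.2 ?_
    rw [← hker]
    exact hx
  have hinj : Function.Injective (algebraMap (clF S) Q) := by
    intro x y hxy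
    have h1 : φ' (algebraMap (clF S) Q x) = φ' (algebraMap (clF S) Q y) := congrArg φ' hxy
    rw [AlgHom.commutes, AlgHom.commutes] at h1
    exact Subtype.ext h1
  obtain ⟨α, hα⟩ := exists_aut (R := clF S) (S := Q) hinj trdeg_lt_aleph0_of_finiteType
    φ'.toRingHom ψ'.toRingHom hφ' hψ' (by
      ext x
      change φ' (algebraMap (clF S) Q x) = ψ' (algebraMap (clF S) Q x)
      rw [AlgHom.commutes, AlgHom.commutes])
  refine ⟨α, fun z hz => ?_, fun a ha => ?_⟩
  · have h1 := hα (algebraMap (clF S) Q ⟨z, hz⟩)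
    change α (φ' _) = ψ' _ at h1
    rw [AlgHom.commutes, AlgHom.commutes] at h1
    exact h1
  · have h1 := hα (Ideal.Quotient.mk _ (X (⟨a, ha⟩ : A)))
    change α (φ (X (⟨a, ha⟩ : A))) = ψ (X (⟨a, ha⟩ : A)) at h1
    simp only [φ, ψ, aeval_X] at h1
    rw [h1]
    change h (h.symm (σ a)) = σ a
    rw [RingEquiv.apply_symm_apply]

/-- elements algebraic over a subfield -/
theorem isIntegral_of_mem_cl {F : Subfield ℂ} {z : ℂ} (hz : z ∈ cl (F : Set ℂ)) :
    IsIntegral F z := by
  obtain ⟨p, hp, hpz⟩ := hz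
  have hle : ∀ y ∈ Algebra.adjoin ℚ (F : Set ℂ), y ∈ F := by
    intro y hy
    induction hy using Algebra.adjoin_induction with
    | mem y hy => exact hy
    | algebraMap r =>
      rw [eq_ratCast]
      exact SubfieldClass.ratCast_mem F r
    | add a b _ _ ha hb => exact add_mem ha hb
    | mul a b _ _ ha hb => exact mul_mem ha hb
  let f : Algebra.adjoin ℚ (F : Set ℂ) →+* F :=
    { toFun := fun z => ⟨z, hle z z.2⟩
      map_one' := rfl
      map_mul' := fun _ _ => rfl
      map_zero' := rfl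
      map_add' := fun _ _ => rfl }
  have hf : Function.Injective f := by
    intro a b hab
    have h2 : (f a : ℂ) = f b := congrArg Subtype.val hab
    exact Subtype.ext h2
  have h3 : IsAlgebraic F z := by
    refine ⟨p.map f, (Polynomial.map_ne_zero_iff hf).2 hp, ?_⟩
    rw [Polynomial.aeval_def, Polynomial.eval₂_map]
    exact hpz
  exact h3.isIntegral

theorem mem_cl_of_isIntegral {F : Subfield ℂ} {z : ℂ} (hz : IsIntegral F z) :
    z ∈ cl (F : Set ℂ) := by
  have h1 := hz.isAlgebraic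
  obtain ⟨p, hp, hpz⟩ := h1
  let f : F →+* Algebra.adjoin ℚ (F : Set ℂ) :=
    { toFun := fun z => ⟨z, Algebra.subset_adjoin z.2⟩
      map_one' := rfl
      map_mul' := fun _ _ => rfl
      map_zero' := rfl
      map_add' := fun _ _ => rfl }
  refine ⟨p.map f, (Polynomial.map_ne_zero_iff f.injective).2 hp, ?_⟩
  rw [Polynomial.aeval_def, Polynomial.eval₂_map]
  exact hpz

/-- an automorphism of `ℂ` over a subfield -/
noncomputable def asF {F : Subfield ℂ} (σ : ℂ ≃+* ℂ) (hσ : ∀ z ∈ F, σ z = z) : ℂ ≃ₐ[F] ℂ :=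
  AlgEquiv.ofRingEquiv (f := σ) (fun r => hσ r r.2)

theorem asF_apply {F : Subfield ℂ} (σ : ℂ ≃+* ℂ) (hσ : ∀ z ∈ F, σ z = z) (z : ℂ) :
    asF σ hσ z = σ z := rfl

/-- **the relative Galois correspondence** -/
theorem galois_rel {H : Set (ℂ ≃+* ℂ)} (hH : IsClosedMonoid H) (F : Subfield ℂ)
    (hk : ∀ σ : ℂ ≃+* ℂ, (∀ z ∈ cl (F : Set ℂ), σ z = z) → σ ∈ H) (σ : ℂ ≃+* ℂ)
    (hσF : ∀ z ∈ F, σ z = z)
    (hσ : ∀ z ∈ cl (F : Set ℂ), (∀ h ∈ H, (∀ y ∈ F, h y = y) → h z = z) → σ z = z) : σ ∈ H := by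
  refine hH.closed σ fun A hA => ?_
  obtain ⟨B, hBf, hB, hAB⟩ := exists_finite_rel (F : Set ℂ) hA
  let p : Polynomial F := ∏ b ∈ hBf.toFinset, minpoly F b
  have hint : ∀ b ∈ B, IsIntegral F b := fun b hb => isIntegral_of_mem_cl (hB hb)
  have hp0 : p ≠ 0 := by
    refine Finset.prod_ne_zero_iff.2 fun b hb => ?_
    exact minpoly.ne_zero (hint b (by simpa using hb))
  let N : IntermediateField F ℂ := IntermediateField.adjoin F (p.rootSet ℂ)
  have hsp : p.IsSplittingField F N :=
    IntermediateField.adjoin_rootSet_isSplittingField (IsAlgClosed.splits _)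
  have hnorm : Normal F N := Normal.of_isSplittingField p
  have hfd : FiniteDimensional F N := Polynomial.IsSplittingField.finiteDimensional N p
  have hBN : ∀ b ∈ B, b ∈ N := by
    intro b hb
    refine IntermediateField.subset_adjoin F _ ?_
    rw [Polynomial.mem_rootSet]
    refine ⟨hp0, ?_⟩
    simp only [p, map_prod]
    exact Finset.prod_eq_zero (by simpa using hb) (minpoly.aeval F b)
  let HN : Subgroup (N ≃ₐ[F] N) :=
    { carrier := {g | ∃ h ∈ H, (∀ y ∈ F, h y = y) ∧ ∀ x : N, (g x : ℂ) = h x}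
      one_mem' := ⟨_, hH.one_mem, fun _ _ => rfl, fun x => rfl⟩
      mul_mem' := by
        rintro g g' ⟨h, h1, h3, h2⟩ ⟨h', h1', h3', h2'⟩
        refine ⟨h'.trans h, hH.mul_mem _ h1' _ h1, fun y hy => ?_, fun x => ?_⟩
        · rw [RingEquiv.trans_apply, h3' y hy, h3 y hy]
        · rw [RingEquiv.trans_apply, ← h2', AlgEquiv.mul_apply, h2]
      inv_mem' := by
        intro g hg
        have hpow : ∀ n : ℕ, ∃ h ∈ H, (∀ y ∈ F, h y = y) ∧ ∀ x : N, ((g ^ n) x : ℂ) = h x := by
          intro n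
          induction n with
          | zero => exact ⟨_, hH.one_mem, fun _ _ => rfl, fun x => rfl⟩
          | succ n ih =>
            obtain ⟨h, h1, h3, h2⟩ := ih
            obtain ⟨h', h1', h3', h2'⟩ := hg
            refine ⟨h'.trans h, hH.mul_mem _ h1' _ h1, fun y hy => ?_, fun x => ?_⟩
            · rw [RingEquiv.trans_apply, h3' y hy, h3 y hy]
            · rw [RingEquiv.trans_apply, ← h2', pow_succ, AlgEquiv.mul_apply, h2]
        have hinv : g⁻¹ = g ^ (orderOf g - 1) := by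
          apply inv_eq_of_mul_eq_one_right
          rw [← pow_succ', Nat.sub_add_cancel (orderOf_pos g), pow_orderOf_eq_one]
        rw [hinv]
        exact hpow _ }
  have hres : ∀ (s : ℂ ≃+* ℂ) (hs : ∀ z ∈ F, s z = z) (x : N),
      ((AlgEquiv.restrictNormalHom N (asF s hs) : N ≃ₐ[F] N) x : ℂ) = s x :=
    fun s hs x => AlgEquiv.restrictNormal_commutes (asF s hs) N x
  let σN : N ≃ₐ[F] N := AlgEquiv.restrictNormalHom N (asF σ hσF)
  have hσN : σN ∈ IntermediateField.fixingSubgroup (IntermediateField.fixedField HN) := by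
    rw [IntermediateField.mem_fixingSubgroup_iff]
    intro x hx
    rw [IntermediateField.mem_fixedField_iff] at hx
    apply Subtype.ext
    refine (hres σ hσF x).trans ?_
    refine hσ _ (mem_cl_of_isIntegral ?_) ?_
    · have h1 : IsIntegral F x := IsIntegral.of_finite F x
      exact h1.map N.val
    · intro h hh hhF
      have h1 := hx (AlgEquiv.restrictNormalHom N (asF h hhF)) ⟨h, hh, hhF, fun y => hres h hhF y⟩
      have h2 := congrArg Subtype.val h1
      exact (hres h hhF x).symm.trans h2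
  rw [IntermediateField.fixingSubgroup_fixedField] at hσN
  obtain ⟨h, h1, h3, h2⟩ := hσN
  obtain ⟨ρ, hρ1, hρ2⟩ := hAB σ h hσF h3 (fun b hb => by
    have h4 := h2 ⟨b, hBN b hb⟩
    exact h4.symm.trans (hres σ hσF ⟨b, hBN b hb⟩))
  exact ⟨ρ.trans h, hH.mul_mem _ (hk ρ hρ1) _ h1, fun a ha => hρ2 a ha⟩

/-- an algebraic element outside a subfield is moved by an automorphism over the subfield -/
theorem exists_aut_ne_rel (K : Subfield ℂ) {z : ℂ} (hint : IsIntegral K z) (hzK : z ∉ K) :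
    ∃ α : ℂ ≃+* ℂ, (∀ x ∈ K, α x = x) ∧ α z ≠ z := by
  have hdeg : (minpoly K z).natDegree ≠ 1 := by
    intro h
    rw [minpoly.natDegree_eq_one_iff] at h
    obtain ⟨x, hx⟩ := h
    exact hzK (by rw [← hx]; exact x.2)
  have hpos : 0 < (minpoly K z).natDegree := minpoly.natDegree_pos hint
  have hsep : (minpoly K z).Separable := (minpoly.irreducible hint).separable
  have hcard : 1 < Fintype.card ((minpoly K z).rootSet ℂ) := by
    rw [Polynomial.card_rootSet_eq_natDegree hsep (IsAlgClosed.splits _)]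
    omega
  have hzr : z ∈ (minpoly K z).rootSet ℂ := by
    rw [Polynomial.mem_rootSet]
    exact ⟨minpoly.ne_zero hint, minpoly.aeval K z⟩
  obtain ⟨⟨w, hw⟩, hwz⟩ := Fintype.exists_ne_of_one_lt_card hcard (⟨z, hzr⟩ : (minpoly K z).rootSet ℂ)
  have hwz' : w ≠ z := fun h => hwz (Subtype.ext h)
  have hirr : Fact (Irreducible (minpoly K z)) := ⟨minpoly.irreducible hint⟩
  let S := AdjoinRoot (minpoly K z)
  let φ : S →ₐ[K] ℂ := AdjoinRoot.liftAlgHom (minpoly K z) (Algebra.ofId K ℂ) z (by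
    have := minpoly.aeval K z
    exact this)
  let ψ : S →ₐ[K] ℂ := AdjoinRoot.liftAlgHom (minpoly K z) (Algebra.ofId K ℂ) w (by
    rw [Polynomial.mem_rootSet] at hw
    exact hw.2)
  have hfin : Algebra.FiniteType K S := by
    have : Module.Finite K S := (AdjoinRoot.powerBasis (minpoly.ne_zero hint)).finite
    infer_instance
  obtain ⟨α, hα⟩ := exists_aut (R := K) (S := S) (algebraMap K S).injective
    trdeg_lt_aleph0_of_finiteType φ.toRingHom ψ.toRingHom φ.toRingHom.injective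
    ψ.toRingHom.injective (by
      ext x
      change φ (algebraMap K S x) = ψ (algebraMap K S x)
      rw [AlgHom.commutes, AlgHom.commutes])
  refine ⟨α, fun x hx => ?_, ?_⟩
  · have h1 := hα (algebraMap K S ⟨x, hx⟩)
    change α (φ _) = ψ _ at h1
    rw [AlgHom.commutes, AlgHom.commutes] at h1
    exact h1
  · have h1 := hα (AdjoinRoot.root _)
    have h2 : φ (AdjoinRoot.root _) = z := AdjoinRoot.liftAlgHom_root _ _ _ _
    have h3 : ψ (AdjoinRoot.root _) = w := AdjoinRoot.liftAlgHom_root _ _ _ _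
    change α (φ _) = ψ _ at h1
    rw [h2, h3] at h1
    rw [h1]
    exact hwz'

/-- the field of the real elements of `K` -/
noncomputable def realPart (K : Subfield ℂ) : Subfield ℂ where
  carrier := {z | z ∈ K ∧ z.im = 0}
  mul_mem' := fun {a b} ha hb => ⟨K.mul_mem ha.1 hb.1, by simp [ha.2, hb.2]⟩
  one_mem' := ⟨K.one_mem, Complex.one_im⟩
  add_mem' := fun {a b} ha hb => ⟨K.add_mem ha.1 hb.1, by simp [ha.2, hb.2]⟩
  zero_mem' := ⟨K.zero_mem, Complex.zero_im⟩
  neg_mem' := fun {a} ha => ⟨K.neg_mem ha.1, by simp [ha.2]⟩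
  inv_mem' := fun a ha => ⟨K.inv_mem ha.1, by simp [ha.2]⟩

theorem mem_realPart {K : Subfield ℂ} {z : ℂ} : z ∈ realPart K ↔ z ∈ K ∧ z.im = 0 := Iff.rfl

/-- the algebraic closure of `K` contains the smallest algebraically closed subfield `ccl H ∅` over
which all automorphisms are in `H` -/
theorem ccl_subset_of_fix {H : Set (ℂ ≃+* ℂ)} {K : Set ℂ}
    (hKH : ∀ σ : ℂ ≃+* ℂ, (∀ z ∈ K, σ z = z) → σ ∈ H) : ccl H ∅ ⊆ cl K := by
  intro z hz
  by_contra hzK
  obtain ⟨X, hX, hKX, hzX⟩ := exists_hyper (cl_cl K) hzK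
  exact hzX (hz X ⟨hX, fun σ hσ => hKH σ fun w hw => hσ w (hKX (subset_cl _ hw))⟩
    (Set.empty_subset _))

/-- an algebraically closed subfield of `ℂ` as a subfield -/
noncomputable def toSubfield (H : Set (ℂ ≃+* ℂ)) : Subfield ℂ := (clF (ccl H ∅)).toSubfield

theorem mem_toSubfield {H : Set (ℂ ≃+* ℂ)} {z : ℂ} : z ∈ toSubfield H ↔ z ∈ ccl H ∅ := by
  have h1 : z ∈ toSubfield H ↔ z ∈ cl (ccl H ∅) := Iff.rfl
  rw [h1, cl_ccl]

/-- **Theorem 1, strong form**: `L` subfields of the algebraic closure of `K` stable under `c` and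
under all automorphisms over `K` -/
theorem fix_stable {H : Set (ℂ ≃+* ℂ)} (hH : IsClosedMonoid H) (hc : cc ∈ H) (K : Subfield ℂ)
    (P : ℂ → Prop)
    (hK : ∀ L : Subfield ℂ, (∀ z ∈ L, IsAlgebraic K z) → (∀ z ∈ L, cc z ∈ L) →
      (∀ σ : ℂ ≃+* ℂ, (∀ z ∈ K, σ z = z) → ∀ z ∈ L, σ z ∈ L) → ∀ z ∈ L, P z)
    (hKH : ∀ σ : ℂ ≃+* ℂ, (∀ z ∈ K, σ z = z) → σ ∈ H) (σ : ℂ ≃+* ℂ)
    (hσ : ∀ z, P z → σ z = z) : σ ∈ H := by
  have hccs : cc.symm = cc := by
    ext z
    rw [RingEquiv.symm_apply_eq, cc_cc]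
  have hstab : ∀ g : ℂ ≃+* ℂ, g ∈ H → g.symm ∈ H → ∀ z ∈ toSubfield H, g z ∈ toSubfield H := by
    intro g h1 h2 z hz
    rw [mem_toSubfield] at hz ⊢
    have h := map_mem_ccl' hH h1 h2 hz
    rwa [Set.image_empty] at h
  refine mem_of_fix_ccl hH fun z hz => hσ z ?_
  refine hK (toSubfield H) (fun y hy => ?_) (hstab cc hc (by rwa [hccs])) (fun ν hν => ?_) z
    (mem_toSubfield.2 hz)
  · rw [mem_toSubfield] at hy
    exact (isIntegral_of_mem_cl (ccl_subset_of_fix hKH hy)).isAlgebraic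
  · exact hstab ν (hKH ν hν) (hKH _ (symm_fix hν))

/-- a subfield stable under `c` whose real elements are algebraic over `F` is algebraic over `F` -/
theorem algebraic_of_real {F L : Subfield ℂ} (hL : ∀ z ∈ L, cc z ∈ L)
    (h : ∀ z ∈ L, z.im = 0 → IsAlgebraic F z) : ∀ z ∈ L, IsAlgebraic F z := by
  intro z hz
  have hmem : ∀ y ∈ L, y.im = 0 → y ∈ clF (F : Set ℂ) := fun y hy hy' =>
    mem_cl_of_isIntegral (h y hy hy').isIntegral
  have h1 : z + cc z ∈ clF (F : Set ℂ) := hmem _ (L.add_mem hz (hL z hz)) (by simp)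
  have h2 : z * cc z ∈ clF (F : Set ℂ) := hmem _ (L.mul_mem hz (hL z hz)) (by
    rw [cc_apply, Complex.mul_conj]
    exact Complex.ofReal_im _)
  let p : Polynomial ℂ := Polynomial.X ^ 2 - Polynomial.C (z + cc z) * Polynomial.X +
    Polynomial.C (z * cc z)
  have h3 : z ∈ cl (F : Set ℂ) := by
    refine mem_cl_of_root (p := p) ?_ ?_ ?_
    · intro hp
      have h3 := congrArg (fun q => Polynomial.coeff q 2) hp
      simp [p, Polynomial.coeff_X, Polynomial.coeff_C] at h3
    · intro n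
      have h3 : p.coeff n ∈ clF (F : Set ℂ) := by
        simp only [p, Polynomial.coeff_add, Polynomial.coeff_sub, Polynomial.coeff_C_mul,
          Polynomial.coeff_X_pow, Polynomial.coeff_X, Polynomial.coeff_C]
        refine add_mem (sub_mem ?_ (mul_mem h1 ?_)) ?_
        · split_ifs
          · exact one_mem _
          · exact zero_mem _
        · split_ifs
          · exact one_mem _
          · exact zero_mem _
        · split_ifs
          · exact h2
          · exact zero_mem _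
      exact h3
    · simp only [p, Polynomial.eval_add, Polynomial.eval_sub, Polynomial.eval_mul,
        Polynomial.eval_C, Polynomial.eval_pow, Polynomial.eval_X]
      ring
  exact (isIntegral_of_mem_cl h3).isAlgebraic

/-- **Theorem 1 for subfields** -/
theorem fix_real_subfield {H : Set (ℂ ≃+* ℂ)} (hH : IsClosedMonoid H) (hc : cc ∈ H)
    (K : Subfield ℂ)
    (hK : ∀ L : Subfield ℂ, (∀ z ∈ L, IsAlgebraic K z) → (∀ z ∈ L, cc z ∈ L) →
      (∀ σ : ℂ ≃+* ℂ, (∀ z ∈ K, σ z = z) → ∀ z ∈ L, σ z ∈ L) →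
      ∀ z ∈ L, IsAlgebraic (realPart K) z)
    (hKH : ∀ σ : ℂ ≃+* ℂ, (∀ z ∈ K, σ z = z) → σ ∈ H) (σ : ℂ ≃+* ℂ)
    (hσ : ∀ z ∈ K, z.im = 0 → σ z = z) : σ ∈ H := by
  refine galois_rel hH (realPart K) (fun ρ hρ => ?_) σ (fun z hz => hσ z hz.1 hz.2)
    fun z hz hz' => ?_
  · exact fix_stable hH hc K (fun z => IsAlgebraic (realPart K) z) hK hKH ρ fun z hz =>
      hρ z (mem_cl_of_isIntegral hz.isIntegral)
  · have hzim : z.im = 0 := by
      refine cc_eq_self_iff.1 (hz' cc hc fun y hy => ?_)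
      exact cc_eq_self_iff.2 hy.2
    have hint : IsIntegral K z := by
      have h1 : z ∈ cl (K : Set ℂ) := cl_mono (fun y hy => hy.1) hz
      exact isIntegral_of_mem_cl h1
    have hzK : z ∈ K := by
      by_contra hzK
      obtain ⟨α, h1, h2⟩ := exists_aut_ne_rel K hint hzK
      exact h2 (hz' α (hKH α h1) fun y hy => h1 y hy.1)
    exact hσ z hzK hzim

end Pool.Agent.AHH
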