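import Mathlib
import Pool.Agent.AHH.Rel

/-!
# The involutions `τ⁻¹ c τ` with `τ` over a subfield without transcendental real numbers
-/

namespace Pool.Agent.AHH

open Pool.Agent.AHC

/-- the closed submonoid generated by the involutions `τ⁻¹ c τ`, `τ` over `K` -/
def InvGen (K : Set ℂ) : Set (ℂ ≃+* ℂ) :=
  {σ | ∀ H : Set (ℂ ≃+* ℂ), IsClosedMonoid H →
    (∀ τ : ℂ ≃+* ℂ, (∀ z ∈ K, τ z = z) → conjBy τ ∈ H) → σ ∈ H}

variable {K : Set ℂ}

theorem invGen_closed : IsClosedMonoid (InvGen K) where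
  one_mem := fun _ hH _ => hH.one_mem
  mul_mem := fun σ hσ τ hτ H hH h => hH.mul_mem σ (hσ H hH h) τ (hτ H hH h)
  closed := fun σ hσ H hH h => hH.closed σ fun A hA => by
    obtain ⟨τ, h1, h2⟩ := hσ A hA
    exact ⟨τ, h1 H hH h, h2⟩

theorem conjBy_mem_invGen {τ : ℂ ≃+* ℂ} (h : ∀ z ∈ K, τ z = z) : conjBy τ ∈ InvGen K :=
  fun _ _ hH => hH τ h

theorem conjBy_refl : conjBy (RingEquiv.refl ℂ) = cc := by
  ext z
  rfl

theorem cc_mem_invGen : cc ∈ InvGen K := by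
  rw [← conjBy_refl]
  exact conjBy_mem_invGen fun _ _ => rfl

/-- `m` conjugated by `g` -/
def conjEl (g m : ℂ ≃+* ℂ) : ℂ ≃+* ℂ := (g.trans m).trans g.symm

theorem conjEl_apply (g m : ℂ ≃+* ℂ) (z : ℂ) : conjEl g m z = g.symm (m (g z)) := rfl

/-- for a closed submonoid `H` the set of `m` with `conjEl g m ∈ H` is a closed submonoid -/
theorem isClosedMonoid_conjEl {H : Set (ℂ ≃+* ℂ)} (hH : IsClosedMonoid H) (g : ℂ ≃+* ℂ) :
    IsClosedMonoid {m | conjEl g m ∈ H} where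
  one_mem := by
    have h1 : conjEl g (RingEquiv.refl ℂ) = RingEquiv.refl ℂ := by
      ext z
      rw [conjEl_apply]
      exact g.symm_apply_apply z
    change conjEl g _ ∈ H
    rw [h1]
    exact hH.one_mem
  mul_mem := by
    intro σ hσ τ hτ
    have h1 : conjEl g (σ.trans τ) = (conjEl g σ).trans (conjEl g τ) := by
      ext z
      rw [RingEquiv.trans_apply, conjEl_apply, conjEl_apply, conjEl_apply, RingEquiv.trans_apply,
        RingEquiv.apply_symm_apply]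
    change conjEl g _ ∈ H
    rw [h1]
    exact hH.mul_mem _ hσ _ hτ
  closed := by
    intro σ hσ
    refine hH.closed _ fun A hA => ?_
    obtain ⟨τ, h1, h2⟩ := hσ (g '' A) (hA.image g)
    refine ⟨_, h1, fun a ha => ?_⟩
    rw [conjEl_apply, conjEl_apply, h2 _ ⟨a, ha, rfl⟩]

/-- the normaliser of a closed submonoid is a closed submonoid -/
theorem isClosedMonoid_normaliser {H : Set (ℂ ≃+* ℂ)} (hH : IsClosedMonoid H) :
    IsClosedMonoid {g | ∀ m ∈ H, conjEl g m ∈ H} where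
  one_mem := by
    intro m hm
    have h1 : conjEl (RingEquiv.refl ℂ) m = m := by
      ext z
      rfl
    rwa [h1]
  mul_mem := by
    intro σ hσ τ hτ m hm
    have h1 : conjEl (σ.trans τ) m = conjEl σ (conjEl τ m) := by
      ext z
      rfl
    rw [h1]
    exact hσ _ (hτ m hm)
  closed := by
    intro σ hσ m hm
    refine hH.closed _ fun A hA => ?_
    obtain ⟨τ, h1, h2⟩ := hσ (A ∪ (conjEl σ m) '' A) (hA.union (hA.image _))
    refine ⟨_, h1 m hm, fun a ha => ?_⟩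
    rw [conjEl_apply τ, h2 a (Or.inl ha), RingEquiv.symm_apply_eq, h2 _ (Or.inr ⟨a, ha, rfl⟩),
      conjEl_apply, RingEquiv.apply_symm_apply]

/-- **Theorem C**: the involutions `τ⁻¹ c τ` with `τ` over a subfield `K` such that all subfields
of the algebraic closure of `K` stable under `c` and all automorphisms over `K` consist of
algebraic numbers -/
theorem inv_subfield {H : Set (ℂ ≃+* ℂ)} (hH : IsClosedMonoid H) (K : Subfield ℂ)
    (hK : ∀ L : Subfield ℂ, (∀ z ∈ L, IsAlgebraic K z) → (∀ z ∈ L, cc z ∈ L) →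
      (∀ σ : ℂ ≃+* ℂ, (∀ z ∈ K, σ z = z) → ∀ z ∈ L, σ z ∈ L) → ∀ z ∈ L, IsAlgebraic ℚ z) :
    (∀ τ : ℂ ≃+* ℂ, (∀ z ∈ K, τ z = z) → conjBy τ ∈ H) ↔
      ∀ σ : ℂ ≃+* ℂ, (∀ z : ℂ, IsAlgebraic ℚ z →
        (∀ τ : ℂ ≃+* ℂ, (∀ y ∈ K, IsAlgebraic ℚ y → τ y = y) → (τ z).im = 0) → σ z = z) →
        σ ∈ H := by
  constructor
  · intro h σ hσ
    have hM : IsClosedMonoid (InvGen (K : Set ℂ)) := invGen_closed
    have hN := isClosedMonoid_normaliser hM
    have hcN : cc ∈ {g | ∀ m ∈ InvGen (K : Set ℂ), conjEl g m ∈ InvGen (K : Set ℂ)} := by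
      intro m hm
      have h1 : conjEl cc m = (cc.trans m).trans cc := by
        ext z
        rw [conjEl_apply, RingEquiv.symm_apply_eq, RingEquiv.trans_apply, RingEquiv.trans_apply,
          cc_cc]
      rw [h1]
      exact hM.mul_mem _ (hM.mul_mem _ cc_mem_invGen _ hm) _ cc_mem_invGen
    have hKN : ∀ ν : ℂ ≃+* ℂ, (∀ z ∈ K, ν z = z) →
        ν ∈ {g | ∀ m ∈ InvGen (K : Set ℂ), conjEl g m ∈ InvGen (K : Set ℂ)} := by
      intro ν hν m hm H' hH' h'
      refine hm _ (isClosedMonoid_conjEl hH' ν) fun τ hτ => ?_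
      have h1 : conjEl ν (conjBy τ) = conjBy (ν.trans τ) := by
        ext z
        rfl
      change conjEl ν (conjBy τ) ∈ H'
      rw [h1]
      refine h' _ fun z hz => ?_
      rw [RingEquiv.trans_apply, hν z hz, hτ z hz]
    have hNalg : ∀ ρ : ℂ ≃+* ℂ, (∀ z ∈ cl ∅, ρ z = z) →
        ρ ∈ {g | ∀ m ∈ InvGen (K : Set ℂ), conjEl g m ∈ InvGen (K : Set ℂ)} := fun ρ hρ =>
      fix_stable hN hcN K (fun z => IsAlgebraic ℚ z) hK hKN ρ fun z hz => hρ z (mem_cl_empty hz)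
    have hNK : ∀ ρ : ℂ ≃+* ℂ, (∀ y ∈ K, IsAlgebraic ℚ y → ρ y = y) →
        ρ ∈ {g | ∀ m ∈ InvGen (K : Set ℂ), conjEl g m ∈ InvGen (K : Set ℂ)} := by
      intro ρ hρ
      refine galois_closed hN hNalg ρ fun z hz hz' => hρ z ?_ (isAlgebraic_of_mem_cl_empty hz)
      by_contra hzK
      obtain ⟨α, h1, h2⟩ := exists_aut_ne K hz hzK
      exact h2 (hz' α (hKN α h1))
    have hMK : ∀ τ : ℂ ≃+* ℂ, (∀ y ∈ K, IsAlgebraic ℚ y → τ y = y) →
        conjBy τ ∈ InvGen (K : Set ℂ) := fun τ hτ => hNK τ hτ cc cc_mem_invGen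
    have hM' : ∀ σ : ℂ ≃+* ℂ, (∀ z, IsAlgebraic ℚ z → z.im = 0 → σ z = z) →
        σ ∈ InvGen (K : Set ℂ) :=
      (conjBy_alg hM).1 fun τ hτ => hMK τ fun y _ hy => hτ y hy
    have h2 : σ ∈ InvGen (K : Set ℂ) := by
      refine galois_closed hM (fun ρ hρ => hM' ρ fun z hz _ => hρ z (mem_cl_empty hz)) σ
        fun z hz hz' => hσ z (isAlgebraic_of_mem_cl_empty hz) fun τ hτ => ?_
      have h3 := hz' _ (hMK τ hτ)
      rw [conjBy_apply, RingEquiv.symm_apply_eq] at h3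
      exact cc_eq_self_iff.1 h3
    exact h2 H hH h
  · intro h τ hτ
    refine h _ fun z _ hz => ?_
    rw [conjBy_apply, cc_eq_self_iff.2 (hz τ fun y hy _ => hτ y hy), RingEquiv.symm_apply_apply]

end Pool.Agent.AHH
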