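import Mathlib
import Pool.Agent.AHH.Rel

/-!
# Automorphisms which move at most one element of a transcendence basis, by a small amount

Let `K` be a subfield of `ℂ`, `B` a transcendence basis of `ℂ` over `K` and `ε > 0`.  A closed
submonoid of `Aut ℂ` which contains all automorphisms over `K` which move at most one element of
`B`, by less than `ε`, contains all automorphisms over `K`.
-/

namespace Pool.Agent.AHH

open Pool.Agent.AHC

variable {H : Set (ℂ ≃+* ℂ)}

theorem exists_gauss (w : ℂ) {ε : ℝ} (hε : 0 < ε) :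
    ∃ a : ℂ, (∀ S, a ∈ clF S) ∧ ‖w - a‖ < ε := by
  obtain ⟨q, hq1, hq2⟩ := exists_rat_btwn (show w.re - ε / 2 < w.re by linarith)
  obtain ⟨r, hr1, hr2⟩ := exists_rat_btwn (show w.im - ε / 2 < w.im by linarith)
  refine ⟨(q : ℂ) + (r : ℂ) * Complex.I, fun S => ?_, ?_⟩
  · have h1 : ∀ x : ℚ, (x : ℂ) ∈ clF S := fun x => by
      have h2 := (clF S).algebraMap_mem x
      rwa [eq_ratCast] at h2
    exact add_mem (h1 q) (mul_mem (h1 r) (I_mem_cl S))
  · refine (Complex.norm_le_abs_re_add_abs_im _).trans_lt ?_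
    have h1 : (w - ((q : ℂ) + (r : ℂ) * Complex.I)).re = w.re - q := by simp
    have h2 : (w - ((q : ℂ) + (r : ℂ) * Complex.I)).im = w.im - r := by simp
    rw [h1, h2, abs_of_pos (by linarith), abs_of_pos (by linarith)]
    linarith

theorem Hyper.add_notMem {X : Set ℂ} (hX : Hyper X) {b a : ℂ} (hb : b ∉ X) (ha : a ∈ X) :
    b + a ∉ X := by
  intro h
  have h1 : b + a ∈ clF X := by rw [mem_clF, hX.flat]; exact h
  have h2 : a ∈ clF X := by rw [mem_clF, hX.flat]; exact ha
  have h3 := (clF X).sub_mem h1 h2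
  rw [add_sub_cancel_right, mem_clF, hX.flat] at h3
  exact hb h3

theorem Hyper.exists_move {X : Set ℂ} (hX : Hyper X) {a b : ℂ} (ha : a ∉ X) (hb : b ∉ X) :
    ∃ α : ℂ ≃+* ℂ, (∀ z ∈ X, α z = z) ∧ α a = b := by
  obtain ⟨α, h1, h2⟩ := Pool.Agent.AHC.exists_move (X := X) (by rwa [hX.flat] : a ∉ cl X)
    (by rwa [hX.flat] : b ∉ cl X)
  rw [hX.flat] at h1
  exact ⟨α, h1, h2⟩

/-- the automorphisms over a hyperplane which move a given element by less than `ε` generate -/
theorem listed_of_small (hH : IsClosedMonoid H) {X : Set ℂ} (hX : Hyper X) {b : ℂ} (hb : b ∉ X)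
    {ε : ℝ} (hε : 0 < ε)
    (h : ∀ σ : ℂ ≃+* ℂ, (∀ z ∈ X, σ z = z) → ‖σ b - b‖ < ε → σ ∈ H) : Listed H X := by
  refine ⟨hX, fun σ hσ => ?_⟩
  have hXmem : ∀ a : ℂ, a ∈ clF X → a ∈ X := fun a ha => by rwa [mem_clF, hX.flat] at ha
  obtain ⟨a, haS, ha⟩ := exists_gauss (σ b - b) hε
  have haX : a ∈ X := hXmem a (haS X)
  obtain ⟨n, hn⟩ := exists_nat_gt (‖a‖ / ε)
  have hn0 : (0 : ℝ) < n := lt_of_le_of_lt (by positivity) hn
  have hn0' : (n : ℂ) ≠ 0 := by
    intro h0
    have h1 : (n : ℝ) = 0 := by exact_mod_cast h0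
    exact hn0.ne' h1
  have hnX : ∀ m : ℕ, (m : ℂ) ∈ clF X := fun m => natCast_mem (clF X) m
  have haF : a / n ∈ clF X := div_mem (haS X) (hnX n)
  obtain ⟨s, hs1, hs2⟩ := hX.exists_move hb (hX.add_notMem hb (hXmem _ haF))
  have hsH : s ∈ H := by
    refine h s hs1 ?_
    rw [hs2, add_sub_cancel_left, norm_div, Complex.norm_natCast, div_lt_iff₀ hn0]
    rw [div_lt_iff₀ hε] at hn
    linarith
  have hpow : ∀ m : ℕ, ∃ g ∈ H, (∀ z ∈ X, g z = z) ∧ g b = b + m * (a / n) := by
    intro m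
    induction m with
    | zero => exact ⟨_, hH.one_mem, fun _ _ => rfl, by simp⟩
    | succ m ih =>
      obtain ⟨g, h1, h2, h3⟩ := ih
      refine ⟨g.trans s, hH.mul_mem _ h1 _ hsH, fun z hz => ?_, ?_⟩
      · rw [RingEquiv.trans_apply, h2 z hz, hs1 z hz]
      · rw [RingEquiv.trans_apply, h3, map_add, hs2, hs1 _ (hXmem _ (mul_mem (hnX m) haF))]
        push_cast
        ring
  obtain ⟨g, hg1, hg2, hg3⟩ := hpow n
  rw [mul_div_cancel₀ _ hn0'] at hg3
  have hσb : σ b ∉ X := by
    intro h1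
    have h2 := hσ _ h1
    exact hb (σ.injective h2 ▸ h1)
  obtain ⟨τ, hτ1, hτ2⟩ := hX.exists_move (b := σ b + -a) hb
    (hX.add_notMem hσb (hXmem _ (neg_mem (haS X))))
  have hτH : τ ∈ H := by
    refine h τ hτ1 ?_
    have h1 : τ b - b = σ b - b - a := by
      rw [hτ2]
      ring
    rw [h1]
    exact ha
  have hgτ : (g.trans τ) b = σ b := by
    rw [RingEquiv.trans_apply, hg3, map_add, hτ2, hτ1 a haX]
    ring
  have hgτX : ∀ z ∈ X, (g.trans τ) z = z := fun z hz => by
    rw [RingEquiv.trans_apply, hg2 z hz, hτ1 z hz]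
  have hρH : σ.trans (g.trans τ).symm ∈ H := by
    refine h _ (fun z hz => ?_) ?_
    · rw [RingEquiv.trans_apply, hσ z hz, symm_fix hgτX z hz]
    · rw [RingEquiv.trans_apply, ← hgτ, RingEquiv.symm_apply_apply, sub_self, norm_zero]
      exact hε
  have h1 := hH.mul_mem _ hρH _ (hH.mul_mem _ hg1 _ hτH)
  have h2 : (σ.trans (g.trans τ).symm).trans (g.trans τ) = σ := by
    ext z
    exact (g.trans τ).apply_symm_apply (σ z)
  rwa [h2] at h1

/-! ### transcendence bases over a subfield -/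

theorem adjoin_eq (K : Subfield ℂ) (S : Set ℂ) :
    (Algebra.adjoin ℚ ((K : Set ℂ) ∪ S) : Set ℂ) = (Algebra.adjoin K S : Set ℂ) := by
  apply Set.Subset.antisymm
  · intro z hz
    have hz' : z ∈ Algebra.adjoin ℚ ((K : Set ℂ) ∪ S) := hz
    induction hz' using Algebra.adjoin_induction with
    | mem y hy =>
      rcases hy with hy | hy
      · exact (Algebra.adjoin K S).algebraMap_mem ⟨y, hy⟩
      · exact Algebra.subset_adjoin hy
    | algebraMap r =>
      have h1 : algebraMap ℚ ℂ r = algebraMap K ℂ (algebraMap ℚ K r) :=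
        IsScalarTower.algebraMap_apply ℚ K ℂ r
      rw [h1]
      exact (Algebra.adjoin K S).algebraMap_mem _
    | add a b ha hb iha ihb => exact add_mem (S := Subalgebra K ℂ) (iha ha) (ihb hb)
    | mul a b ha hb iha ihb => exact mul_mem (S := Subalgebra K ℂ) (iha ha) (ihb hb)
  · intro z hz
    have hz' : z ∈ Algebra.adjoin K S := hz
    induction hz' using Algebra.adjoin_induction with
    | mem y hy => exact Algebra.subset_adjoin (Or.inr hy)
    | algebraMap r => exact Algebra.subset_adjoin (Or.inl r.2)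
    | add a b ha hb iha ihb => exact add_mem (S := Subalgebra ℚ ℂ) (iha ha) (ihb hb)
    | mul a b ha hb iha ihb => exact mul_mem (S := Subalgebra ℚ ℂ) (iha ha) (ihb hb)

theorem mem_cl_union_iff (K : Subfield ℂ) (S : Set ℂ) {z : ℂ} :
    z ∈ cl ((K : Set ℂ) ∪ S) ↔ IsAlgebraic (Algebra.adjoin K S) z := by
  have h1 : ∀ y, y ∈ Algebra.adjoin ℚ ((K : Set ℂ) ∪ S) ↔ y ∈ Algebra.adjoin K S := by
    intro y
    have h2 := adjoin_eq K S
    exact Set.ext_iff.1 h2 y
  constructor
  · rintro ⟨p, hp, hpz⟩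
    let f : Algebra.adjoin ℚ ((K : Set ℂ) ∪ S) →+* Algebra.adjoin K S :=
      { toFun := fun z => ⟨z, (h1 z).1 z.2⟩
        map_one' := rfl
        map_mul' := fun _ _ => rfl
        map_zero' := rfl
        map_add' := fun _ _ => rfl }
    have hf : Function.Injective f := by
      intro a b hab
      have h2 : (f a : ℂ) = f b := congrArg Subtype.val hab
      exact Subtype.ext h2
    refine ⟨p.map f, (Polynomial.map_ne_zero_iff hf).2 hp, ?_⟩
    rw [Polynomial.aeval_def, Polynomial.eval₂_map]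
    exact hpz
  · rintro ⟨p, hp, hpz⟩
    let f : Algebra.adjoin K S →+* Algebra.adjoin ℚ ((K : Set ℂ) ∪ S) :=
      { toFun := fun z => ⟨z, (h1 z).2 z.2⟩
        map_one' := rfl
        map_mul' := fun _ _ => rfl
        map_zero' := rfl
        map_add' := fun _ _ => rfl }
    have hf : Function.Injective f := by
      intro a b hab
      have h2 : (f a : ℂ) = f b := congrArg Subtype.val hab
      exact Subtype.ext h2
    refine ⟨p.map f, (Polynomial.map_ne_zero_iff hf).2 hp, ?_⟩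
    rw [Polynomial.aeval_def, Polynomial.eval₂_map]
    exact hpz

/-- every automorphism of the algebraic closure of `K` over `K` extends to `ℂ` fixing a set which
is algebraically independent over `K` -/
theorem exists_fix_rel (K : Subfield ℂ) {B : Set ℂ}
    (hB : AlgebraicIndependent K (Subtype.val : B → ℂ)) (σ : ℂ ≃+* ℂ) (hσ : ∀ z ∈ K, σ z = z) :
    ∃ ρ : ℂ ≃+* ℂ, (∀ z ∈ K, ρ z = z) ∧ (∀ z ∈ B, ρ z = z) ∧
      ∀ z ∈ cl (K : Set ℂ), ρ z = σ z := by
  let A : IntermediateField K ℂ := algebraicClosure K ℂ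
  have hA : ∀ z : ℂ, z ∈ A ↔ z ∈ cl (K : Set ℂ) := by
    intro z
    rw [mem_algebraicClosure_iff']
    exact ⟨mem_cl_of_isIntegral, isIntegral_of_mem_cl⟩
  have hσA : ∀ z ∈ A, σ z ∈ A := fun z hz => (hA _).2 (map_cl_fix hσ ((hA _).1 hz))
  have hσA' : ∀ z ∈ A, σ.symm z ∈ A := fun z hz =>
    (hA _).2 (map_cl_fix (symm_fix hσ) ((hA _).1 hz))
  let r : A ≃+* A :=
    { toFun := fun z => ⟨σ z, hσA z z.2⟩
      invFun := fun z => ⟨σ.symm z, hσA' z z.2⟩
      left_inv := fun _ => Subtype.ext (σ.symm_apply_apply _)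
      right_inv := fun _ => Subtype.ext (σ.apply_symm_apply _)
      map_mul' := fun _ _ => Subtype.ext (map_mul σ _ _)
      map_add' := fun _ _ => Subtype.ext (map_add σ _ _) }
  have hr : ∀ z : A, (r z : ℂ) = σ z := fun _ => rfl
  have hT1 : AlgebraicIndependent A (Subtype.val : B → ℂ) := hB.extendScalars _
  let φ : MvPolynomial B A →+* ℂ := (MvPolynomial.aeval (Subtype.val : B → ℂ) :
    MvPolynomial B A →ₐ[A] ℂ).toRingHom
  let e : MvPolynomial B A ≃+* MvPolynomial B A := MvPolynomial.mapEquiv B r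
  let ψ : MvPolynomial B A →+* ℂ := φ.comp e.toRingHom
  have heP : ∀ P, e P = MvPolynomial.map (r : A →+* A) P :=
    fun P => MvPolynomial.mapEquiv_apply _ _ _
  have hφC : ∀ z : A, φ (MvPolynomial.C z) = z := by
    intro z
    change MvPolynomial.aeval _ (MvPolynomial.C _) = _
    rw [MvPolynomial.algHom_C]
    rfl
  have hψC : ∀ z : A, ψ (MvPolynomial.C z) = σ z := by
    intro z
    change φ (e _) = _
    rw [heP, MvPolynomial.map_C, hφC]
    rfl
  have hφX : ∀ t : B, φ (MvPolynomial.X t) = t := fun t => MvPolynomial.aeval_X _ _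
  have hψX : ∀ t : B, ψ (MvPolynomial.X t) = t := by
    intro t
    change φ (e _) = _
    rw [heP, MvPolynomial.map_X]
    exact hφX t
  have hφi : Function.Injective φ := hT1
  have hψi : Function.Injective ψ := hφi.comp e.injective
  let i0 : Algebra (MvPolynomial B K) (MvPolynomial B A) := MvPolynomial.algebraMvPolynomial
  have htr : Algebra.trdeg (MvPolynomial B K) (MvPolynomial B A) < Cardinal.aleph0 := by
    rw [trdeg_eq_zero]
    exact Cardinal.aleph0_pos
  obtain ⟨ρ, hρ⟩ := exists_aut (R := MvPolynomial B K) (S := MvPolynomial B A)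
    (MvPolynomial.map_injective _ (algebraMap K A).injective) htr φ ψ hφi hψi (by
      refine MvPolynomial.ringHom_ext (fun q => ?_) (fun t => ?_)
      · change φ (MvPolynomial.map _ (MvPolynomial.C q)) = ψ (MvPolynomial.map _ (MvPolynomial.C q))
        rw [MvPolynomial.map_C, hφC, hψC]
        exact (hσ _ q.2).symm
      · change φ (MvPolynomial.map _ (MvPolynomial.X t)) = ψ (MvPolynomial.map _ (MvPolynomial.X t))
        rw [MvPolynomial.map_X, hφX, hψX])
  have hρA : ∀ z ∈ cl (K : Set ℂ), ρ z = σ z := by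
    intro z hz
    have h := hρ (MvPolynomial.C ⟨z, (hA z).2 hz⟩)
    rwa [hφC, hψC] at h
  refine ⟨ρ, fun z hz => ?_, fun z hz => ?_, hρA⟩
  · rw [hρA z (subset_cl _ hz), hσ z hz]
  · have h := hρ (MvPolynomial.X ⟨z, hz⟩)
    rwa [hφX, hψX] at h

/-- **Theorem E** -/
theorem fix_small (hH : IsClosedMonoid H) (K : Subfield ℂ) {B : Set ℂ}
    (hB : IsTranscendenceBasis K (Subtype.val : B → ℂ)) {ε : ℝ} (hε : 0 < ε)
    (h : ∀ σ : ℂ ≃+* ℂ, (∀ z ∈ K, σ z = z) → (∃ b, ∀ z ∈ B, z ≠ b → σ z = z) →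
      (∀ z ∈ B, ‖σ z - z‖ < ε) → σ ∈ H) (σ : ℂ ≃+* ℂ) (hσ : ∀ z ∈ K, σ z = z) : σ ∈ H := by
  have hspan : ∀ w, w ∈ cl ((K : Set ℂ) ∪ B) := by
    intro w
    rw [mem_cl_union_iff]
    have h1 := hB.isAlgebraic
    rw [Subtype.range_coe] at h1
    exact h1.isAlgebraic w
  have hind : ∀ b ∈ B, b ∉ cl ((K : Set ℂ) ∪ (B \ {b})) := by
    intro b hb h1
    rw [mem_cl_union_iff] at h1
    have h2 := hB.1.transcendental_adjoin (s := {x | (x : ℂ) ≠ b}) (i := ⟨b, hb⟩) (by simp)
    have h3 : (Subtype.val : B → ℂ) '' {x | (x : ℂ) ≠ b} = B \ {b} := by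
      ext z
      constructor
      · rintro ⟨x, hx, rfl⟩
        exact ⟨x.2, hx⟩
      · rintro ⟨hz, hz'⟩
        exact ⟨⟨z, hz⟩, hz', rfl⟩
    rw [h3] at h2
    exact h2 h1
  have hlist : ∀ b ∈ B, Listed H (cl ((K : Set ℂ) ∪ (B \ {b}))) := by
    intro b hb
    refine listed_of_small hH ⟨cl_cl _, ⟨b, hind b hb⟩, fun z hz w => ?_⟩ (hind b hb) hε
      fun σ hσ hσb => ?_
    · have hbz : b ∈ cl (insert z ((K : Set ℂ) ∪ (B \ {b}))) := by
        refine cl_exchange ?_ hz
        refine cl_mono ?_ (hspan z)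
        rintro y (hy | hy)
        · exact Or.inr (Or.inl hy)
        · by_cases hyb : y = b
          · exact Or.inl hyb
          · exact Or.inr (Or.inr ⟨hy, hyb⟩)
      have h1 : cl ((K : Set ℂ) ∪ B) ⊆
          cl (insert z (cl ((K : Set ℂ) ∪ (B \ {b})))) := by
        rw [cl_subset_iff]
        have h2 : insert z ((K : Set ℂ) ∪ (B \ {b})) ⊆
            insert z (cl ((K : Set ℂ) ∪ (B \ {b}))) :=
          Set.insert_subset_insert (subset_cl _)
        rintro y (hy | hy)
        · exact subset_cl _ (h2 (Or.inr (Or.inl hy)))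
        · by_cases hyb : y = b
          · rw [hyb]
            exact cl_mono h2 hbz
          · exact subset_cl _ (h2 (Or.inr (Or.inr ⟨hy, hyb⟩)))
      exact h1 (hspan w)
    · refine h σ (fun z hz => hσ z (subset_cl _ (Or.inl hz))) ⟨b, fun z hz hzb => ?_⟩
        fun z hz => ?_
      · exact hσ z (subset_cl _ (Or.inr ⟨hz, hzb⟩))
      · by_cases hzb : z = b
        · rw [hzb]
          exact hσb
        · rw [hσ z (subset_cl _ (Or.inr ⟨hz, hzb⟩)), sub_self, norm_zero]
          exact hε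
  have hccl : ccl H ∅ ⊆ cl (K : Set ℂ) := by
    intro z hz
    have hzb : ∀ b ∈ B, z ∈ cl ((K : Set ℂ) ∪ (B \ {b})) := fun b hb =>
      hz _ (hlist b hb) (Set.empty_subset _)
    have key : ∀ J : Finset ℂ, (J : Set ℂ) ⊆ B → z ∈ cl ((K : Set ℂ) ∪ J) →
        z ∈ cl (K : Set ℂ) := by
      classical
      intro J
      induction J using Finset.induction_on with
      | empty =>
        intro _ h1
        rwa [Finset.coe_empty, Set.union_empty] at h1
      | insert b J hbJ ih =>
        intro hJB h1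
        rw [Finset.coe_insert] at h1 hJB
        have hbB : b ∈ B := hJB (Set.mem_insert _ _)
        have hJB' : (J : Set ℂ) ⊆ B := (Set.subset_insert _ _).trans hJB
        refine ih hJB' ?_
        by_contra h2
        have h3 : b ∈ cl (insert z ((K : Set ℂ) ∪ J)) := by
          refine cl_exchange ?_ h2
          refine cl_mono ?_ h1
          rintro y (hy | hy | hy)
          · exact Or.inr (Or.inl hy)
          · exact Or.inl hy
          · exact Or.inr (Or.inr hy)
        refine hind b hbB ?_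
        have h4 : insert z ((K : Set ℂ) ∪ J) ⊆ cl ((K : Set ℂ) ∪ (B \ {b})) := by
          rintro y (hy | hy | hy)
          · rw [hy]
            exact hzb b hbB
          · exact subset_cl _ (Or.inl hy)
          · refine subset_cl _ (Or.inr ⟨hJB' hy, ?_⟩)
            rintro rfl
            exact hbJ hy
        exact cl_subset_iff.2 h4 h3
    obtain ⟨I, hI1, hI2, -, hI3⟩ := exists_finite_of_mem_cl (hspan z)
    have hIB : (I ∩ B).Finite := hI2.subset Set.inter_subset_left
    refine key hIB.toFinset (by simp) ?_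
    refine cl_mono ?_ hI3
    intro y hy
    rcases hI1 hy with h1 | h1
    · exact Or.inl h1
    · right
      simp only [Set.Finite.coe_toFinset]
      exact ⟨hy, h1⟩
  refine galois_rel hH K (fun ρ hρ => mem_of_fix_ccl hH fun z hz => hρ z (hccl hz)) σ hσ
    fun z hz hz' => ?_
  obtain ⟨ρ, h1, h2, h3⟩ := exists_fix_rel K hB.1 σ hσ
  rw [← h3 z hz]
  refine hz' ρ (h ρ h1 ⟨0, fun z hz _ => h2 z hz⟩ fun z hz => ?_) h1
  rw [h2 z hz, sub_self, norm_zero]
  exact hε

end Pool.Agent.AHH
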