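import Mathlib
import Pool.Agent.AHH.Inv
import Pool.Agent.AHH.Small
import Pool.Agent.AHH.Base2
import Pool.Agent.AHC.Final

/-!
# Consequences for the de Rham part of the absolute Hodge conjecture
-/

namespace Pool.Agent.AHH

open Pool.Agent.AHC

/-- **Theorem B**: automorphisms which fix all but one element `t` of a certain transcendence basis
and move `t` by less than `ε` -/
theorem exists_basis_fix : ∃ (B : Set ℂ) (t : ℂ), MC.IsBase B ∧ t ∈ B ∧
    ∀ H : Set (ℂ ≃+* ℂ), IsClosedMonoid H → cc ∈ H → ∀ ε : ℝ, 0 < ε →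
      (∀ σ : ℂ ≃+* ℂ, (∀ z ∈ B, z ≠ t → σ z = z) → ‖σ t - t‖ < ε → σ ∈ H) →
      ∀ σ : ℂ ≃+* ℂ, σ ∈ H := by
  obtain ⟨t, T, htT, hB, hreal⟩ := exists_base2
  refine ⟨insert t T, t, hB, Set.mem_insert _ _, fun H hH hc ε hε hT σ => ?_⟩
  have hT' : ∀ σ : ℂ ≃+* ℂ, (∀ z ∈ T, σ z = z) → ‖σ t - t‖ < ε → σ ∈ H := by
    intro σ hσ hσt
    refine hT σ ?_ hσt
    rintro z (hz | hz) hzt
    · exact absurd hz hzt
    · exact hσ z hz
  have hspan : ∀ w, w ∈ cl (insert t T) := by
    intro w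
    rw [← closure_eq, hB.closure_eq]
    simp
  have htcl : t ∉ cl T := by
    have h1 := hB.indep.notMem_closure_sdiff_of_mem (Set.mem_insert t T)
    rw [closure_eq] at h1
    intro h2
    refine h1 (cl_mono ?_ h2)
    intro z hz
    refine ⟨Or.inr hz, ?_⟩
    rintro rfl
    exact htT hz
  have hyp : Hyper (cl T) := by
    refine ⟨cl_cl T, ⟨t, htcl⟩, fun z hz w => ?_⟩
    have h1 : t ∈ cl (insert z T) := cl_exchange (hspan z) hz
    have h2 : cl (insert t T) ⊆ cl (insert z (cl T)) := by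
      rw [cl_subset_iff]
      rintro y (hy | hy)
      · rw [hy]
        exact cl_mono (Set.insert_subset_insert (subset_cl T)) h1
      · exact subset_cl _ (Or.inr (subset_cl T hy))
    exact h2 (hspan w)
  have hlist : Listed H (cl T) := listed_of_small hH hyp htcl hε fun σ hσ hσt =>
    hT' σ (fun z hz => hσ z (subset_cl _ hz)) hσt
  have halg : ∀ σ : ℂ ≃+* ℂ, (∀ z ∈ cl ∅, σ z = z) → σ ∈ H := by
    intro σ hσ
    exact fix_real hH hc (cl_cl T) hlist.fix σ fun z hz hz' => hσ z (hreal z hz hz')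
  refine galois_closed hH halg σ fun z hz hz' => ?_
  obtain ⟨ρ, h1, h2⟩ := exists_fix_indep hB.indep σ
  rw [← h2 z hz]
  refine hz' ρ (hT' ρ (fun y hy => h1 y (Or.inr hy)) ?_)
  rw [h1 t (Set.mem_insert _ _), sub_self, norm_zero]
  exact hε

end Pool.Agent.AHH
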